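import Mathlib
import Pool.Agent.helper46.LOF.Final

/-!
# Project ofp (MP_90e158_lc, left orders of Thompson's group `F`): a hyperfinite part of `E_lo(F)`

THEOREM.  `W` = the left orders `r` of `F` such that for every open interval `(a,b)` of `(0,1)` some convex subgroup
`C ≠ 1` has a FINITE set `Fixp C` of fixed points in `(0,1)` which meets `(a,b)`.  Then `W` is Borel and conjugation
invariant, `E_lo(F)` is hyperfinite on `W`, and not smooth on `W`; `W` contains the lexicographic orders of all dense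
sequences.  It comes from a criterion (`CRI_stmt`) for Borel actions of `F`.

IDEA.  `Big m k j r`: the interval `[j/2^k,(j+1)/2^k)` contains two points of a set `Fixp (Hc r h)`, `h ≠ 1`, with at most
`m` points (`Hc r h` = smallest convex subgroup containing `h`; convex subgroups form a chain).  The minimal intervals that
are not Big but whose parent is (the leaves) form a finite partition `T_m(r)` of `[0,1)`.  `Rel n r s`: `s = g r` for some `g`
which maps, for ALL `m ≥ n`, every leaf of `T_m(r)` affinely onto a leaf of `T_m(s)`.  Finite classes: `T_n(s)` has as many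
leaves as `T_n(r)`, and `g` is determined by the images of the leaves.

RULES.  Row `X`: file `Pool/Agent/<seat>/OFP/X.lean`, `import Pool.Agent.helper11.OFP.Spec`, namespace `Pool.Agent.OFP`,
`open Pool.Agent.LOF MeasureTheory`, `theorem X (h1 : Y_stmt) ... : X_stmt` (only the rows named after (from ...), in this
order).  Auxiliary lemmas prefixed `X_`.  No double quotes, no native_decide, no convert / congr!.
-/

set_option autoImplicit false

open MeasureTheory

namespace Pool.Agent.OFP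

open Pool.Agent.LOF

/-! ### Part A: the criterion -/

/-- `g` maps `[j/2^k, (j+1)/2^k]` affinely onto `[j'/2^k', (j'+1)/2^k']` -/
def Sends (g : F) (k j k' j' : ℕ) : Prop :=
  ∀ t : ℝ, 0 ≤ t → t ≤ 1 → g.1 (((j : ℝ) + t) / 2 ^ k) = ((j' : ℝ) + t) / 2 ^ k'

/-- the standard dyadic interval `[j/2^k, (j+1)/2^k)` -/
def Iv (k j : ℕ) : Set ℝ := {t | (j : ℝ) ≤ t * 2 ^ k ∧ t * 2 ^ k < (j : ℝ) + 1}

/-- the parent of a node of `B` is in `B` -/
def MonoB (B : ℕ → ℕ → Prop) : Prop := ∀ k j, j < 2 ^ (k + 1) → B (k + 1) j → B k (j / 2)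

/-- `B` has no nodes in high levels -/
def FinB (B : ℕ → ℕ → Prop) : Prop := ∃ K : ℕ, ∀ k, K ≤ k → ∀ j, j < 2 ^ k → ¬ B k j

/-- the leaves of the tree of standard dyadic intervals with internal nodes `B` -/
def LeafB (B : ℕ → ℕ → Prop) (k j : ℕ) : Prop := j < 2 ^ k ∧ ¬ B k j ∧ (k = 0 ∨ B (k - 1) (j / 2))

/-- a Borel action of `F` -/
structure Act {X : Type} [MeasurableSpace X] (act : F → X → X) : Prop where
  one : ∀ x, act 1 x = x
  mul : ∀ g h x, act (g * h) x = act g (act h x)
  meas : ∀ g, Measurable (act g)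

/-- a family of Borel sets `B m k j` for `m ∈ ℕ` and the standard dyadic intervals `(k,j)`: monotone along the tree,
finitely many for each `m` and `x`, and equivariant under the elements of `F` that map one standard dyadic interval
affinely onto another one -/
structure Fam {X : Type} [MeasurableSpace X] (act : F → X → X) (B : ℕ → ℕ → ℕ → Set X) : Prop where
  meas : ∀ m k j, MeasurableSet (B m k j)
  mono : ∀ m k j x, j < 2 ^ (k + 1) → x ∈ B m (k + 1) j → x ∈ B m k (j / 2)
  fin : ∀ m x, ∃ K : ℕ, ∀ k, K ≤ k → ∀ j, j < 2 ^ k → x ∉ B m k j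
  equi : ∀ m g k j k' j', j < 2 ^ k → j' < 2 ^ k' → Sends g k j k' j' → ∀ x, (x ∈ B m k j ↔ act g x ∈ B m k' j')

/-- the points for which every standard dyadic interval is in `B m` for all large `m` -/
def Lim {X : Type} (B : ℕ → ℕ → ℕ → Set X) : Set X :=
  {x | ∀ k : ℕ, ∃ M : ℕ, ∀ m, M ≤ m → ∀ j, j < 2 ^ k → x ∈ B m k j}

/-- from stage `n` on, `g` maps the leaves of `x` affinely onto leaves of `g x` -/
def Good {X : Type} (act : F → X → X) (B : ℕ → ℕ → ℕ → Set X) (n : ℕ) (g : F) (x : X) : Prop :=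
  ∀ m, n ≤ m → ∀ k j, LeafB (fun k j => x ∈ B m k j) k j →
    ∃ k' j' : ℕ, Sends g k j k' j' ∧ LeafB (fun k j => act g x ∈ B m k j) k' j'

/-- the `n`-th relation -/
def Rel {X : Type} (act : F → X → X) (B : ℕ → ℕ → ℕ → Set X) (n : ℕ) (x y : X) : Prop :=
  ∃ g : F, y = act g x ∧ Good act B n g x

/-- **TR1** (short-medium).  Put `i_k = ⌊t 2^k⌋`, so `t ∈ Iv k j ↔ j = i_k` (`t ≥ 0`), `i_(k+1) / 2 = i_k`, `i_k < 2^k` for
`t < 1`.  `{k : ¬ B k i_k}` is nonempty (`FinB`); its least element is the level of the leaf.  If `(k, i_k)` and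
`(k', i_k')` are leaves and `k < k'`, then `B (k'-1) i_(k'-1)`, so `B k i_k` by `MonoB` (downwards induction):
contradiction.  Leaves have level `≤ K` (`B (k-1)` with `k - 1 ≥ K` is impossible), so there are finitely many. -/
def TR1_stmt : Prop := ∀ B : ℕ → ℕ → Prop, MonoB B → FinB B →
  (∀ t : ℝ, 0 ≤ t → t < 1 → ∃ k j : ℕ, LeafB B k j ∧ t ∈ Iv k j) ∧
  (∀ (t : ℝ) (k j k' j' : ℕ), LeafB B k j → LeafB B k' j' → t ∈ Iv k j → t ∈ Iv k' j' → k = k' ∧ j = j') ∧
  {q : ℕ × ℕ | LeafB B q.1 q.2}.Finite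

/-- **TR2** (medium, from TR1).  Ancestors of `(k,j)`: `a_i = j / 2^(k-i)`, `i ≤ k`, all `a_i`, `i < k`, are in `B`.  For
`1 ≤ i ≤ k` let `b_i` be the sibling of `a_i` (`a_i + 1` if `a_i` is even, else `a_i - 1`).  The leaf which contains the left
end point of `(i, b_i)` (TR1) has level `≥ i` (else, by `MonoB`, `a_(i-1) = b_i / 2` is not in `B`), so it is contained in
`(i, b_i)`.  These `k` leaves are different and different from `(k,j)` (the intervals `(i, b_i)`, `1 ≤ i ≤ k`, and `(k,j)` are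
disjoint). -/
def TR2_stmt : Prop := ∀ B : ℕ → ℕ → Prop, MonoB B → FinB B → ∀ k j : ℕ, LeafB B k j →
  k + 1 ≤ {q : ℕ × ℕ | LeafB B q.1 q.2}.ncard

/-- **SND** (short).  Composition, inverse, identity, points, children (`t` replaced by `(e+t)/2`). -/
def SND_stmt : Prop :=
  (∀ (g h : F) (k j k' j' k'' j'' : ℕ), Sends g k j k' j' → Sends h k' j' k'' j'' → Sends (h * g) k j k'' j'') ∧
  (∀ (g : F) (k j k' j' : ℕ), Sends g k j k' j' → Sends g⁻¹ k' j' k j) ∧
  (∀ k j : ℕ, Sends 1 k j k j) ∧
  (∀ (g : F) (k j k' j' : ℕ), Sends g k j k' j' → ∀ t : ℝ, (t ∈ Iv k j ↔ g.1 t ∈ Iv k' j')) ∧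
  (∀ (g : F) (k j k' j' e : ℕ), e < 2 → Sends g k j k' j' → Sends g (k + 1) (2 * j + e) (k' + 1) (2 * j' + e))

/-- **STD** (medium).  Let the breakpoints of `g` (`g.2.2`) be multiples of `2^(-n)`, and `0, 1` too.  For `k ≥ n` and
`j < 2^k` there is no breakpoint inside the interval, so `g z = 2^e z + c` on it; `c` is dyadic (`F.dyadic`).  There are finitely
many pieces (`j < 2^n`), so finitely many `e`, `c`; for `k ≥ N` all `k - e ≥ 0` and `2^(k-e) c` is an integer; then
`k' = k - e`, `j' = j + 2^(k-e) c`, which is `≥ 0` and `< 2^k'` because `g` maps `[0,1)` to itself (`g 0 = 0`, `g 1 = 1`,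
monotone). -/
def STD_stmt : Prop := ∀ g : F, ∃ N : ℕ, ∀ k, N ≤ k → ∀ j, j < 2 ^ k →
  ∃ k' j' : ℕ, j' < 2 ^ k' ∧ Sends g k j k' j'

/-- **EQU** (medium, from TR1, SND).  Reflexive: `g = 1`.  Transitive: `h * g`.  Symmetric: for a leaf `(k',j')` of `y = g x`
take its left end point `t`, `s = g⁻¹ t ∈ [0,1)`, the leaf `(k,j)` of `x` with `s ∈ Iv k j`; `g` sends it to a leaf of `y` which
contains `t`, so it is `(k',j')` (TR1); hence `Sends g⁻¹ k' j' k j`. -/
def EQU_stmt : Prop := ∀ (X : Type) [MeasurableSpace X] (act : F → X → X) (B : ℕ → ℕ → ℕ → Set X), Act act →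
  Fam act B → ∀ n : ℕ, Equivalence (Rel act B n)

/-- **FCL** (medium, from TR1, TR2, SND).  `L = #leaves` of `x` at stage `n`.  If `Good n g x`, the map leaf -> image is a
bijection onto the leaves of `g x` (injective: `g` is; onto: as in EQU), so `g x` has `L` leaves and by TR2 the images
`(k',j')` have `k' < L`, `j' < 2^k'`.  `g` is determined by the images of the leaves (they cover `[0,1)`; `g t = t` outside).
So there are finitely many such `g`. -/
def FCL_stmt : Prop := ∀ (X : Type) [MeasurableSpace X] (act : F → X → X) (B : ℕ → ℕ → ℕ → Set X), Act act →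
  Fam act B → ∀ (n : ℕ) (x : X), {g : F | Good act B n g x}.Finite

/-- **EXH** (medium, from SND, STD).  `N` from STD for `g`.  Let `M` be such that for `m ≥ M` all `(k,j)` with `k ≤ N`,
`j < 2^k`, are in `B m` for `x`.  `n = M`.  A leaf `(k,j)` of `x` at stage `m ≥ n` has `k ≥ N + 1`; write `k = l + 1`,
`j = 2 i + e`, `i = j / 2`; STD for the parent `(l,i)`: `Sends g l i l' i'`, so `Sends g k j (l'+1) (2 i' + e)`.  By `equi` the
parent `(l',i')` is in `B m` for `g x` and `(l'+1, 2i'+e)` is not: it is a leaf. -/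
def EXH_stmt : Prop := ∀ (X : Type) [MeasurableSpace X] (act : F → X → X) (B : ℕ → ℕ → ℕ → Set X), Act act →
  Fam act B → ∀ x ∈ Lim B, ∀ g : F, ∃ n : ℕ, Good act B n g x

/-- **RMS** (short-medium).  Union over the countable group `F` (instance in helper46's Elem.lean) of
`{p | p.2 = act g p.1}` (preimage of the diagonal) and `{p | Good n g p.1}`, a countable intersection of measurable
conditions (`Sends` does not depend on the point). -/
def RMS_stmt : Prop := ∀ (X : Type) [MeasurableSpace X], MeasurableSet {p : X × X | p.1 = p.2} →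
  ∀ (act : F → X → X) (B : ℕ → ℕ → ℕ → Set X), Act act → Fam act B → ∀ n : ℕ,
    MeasurableSet {p : X × X | Rel act B n p.1 p.2}

/-- **CRI** (short, from EQU, FCL, EXH, RMS).  The criterion. -/
def CRI_stmt : Prop := ∀ (X : Type) [MeasurableSpace X], MeasurableSet {p : X × X | p.1 = p.2} →
  ∀ (act : F → X → X) (B : ℕ → ℕ → ℕ → Set X), Act act → Fam act B →
    HyperfiniteOn (Lim B) (fun x y => ∃ g : F, y = act g x)

/-! ### Part B: convex subgroups and the set `W` -/

/-- `C` is a convex subgroup for the order `r` -/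
def Cvx (r : LO F) (C : Subgroup F) : Prop :=
  ∀ a ∈ C, ∀ b ∈ C, ∀ h : F, r.1 (a, h) = true → r.1 (h, b) = true → h ∈ C

/-- the common fixed points in `(0,1)` -/
def Fixp (S : Set F) : Set ℝ := {t | 0 < t ∧ t < 1 ∧ ∀ g ∈ S, g.1 t = t}

/-- the orders whose convex subgroups `≠ 1` with finitely many fixed points in `(0,1)` have together a dense set of fixed
points -/
def W : Set (LO F) := {r | ∀ a b : ℝ, 0 ≤ a → a < b → b ≤ 1 →
  ∃ C : Subgroup F, Cvx r C ∧ C ≠ ⊥ ∧ (Fixp (C : Set F)).Finite ∧ ∃ t ∈ Fixp (C : Set F), a < t ∧ t < b}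

/-- the smallest convex subgroup containing `h` -/
def Hc (r : LO F) (h : F) : Subgroup F := sInf {C | Cvx r C ∧ h ∈ C}

/-- the fixed point set of the smallest convex subgroup containing `h` -/
def FH (r : LO F) (h : F) : Set ℝ := Fixp (Hc r h : Set F)

/-- the interval `(k,j)` contains two points of some `FH r h`, `h ≠ 1`, with at most `m` points -/
def Big (m k j : ℕ) : Set (LO F) := {r | ∃ h : F, h ≠ 1 ∧ (FH r h).Finite ∧ (FH r h).ncard ≤ m ∧
  ∃ p ∈ FH r h, ∃ q ∈ FH r h, p < q ∧ p ∈ Iv k j ∧ q ∈ Iv k j}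

/-- **HCX** (short).  Intersections of convex subgroups are convex. -/
def HCX_stmt : Prop := ∀ (r : LO F) (h : F), Cvx r (Hc r h) ∧ h ∈ Hc r h ∧
  ∀ C : Subgroup F, Cvx r C → h ∈ C → Hc r h ≤ C

/-- **CHN** (short).  Convex subgroups form a chain: if `c ∈ C \ D` and `d ∈ D \ C`, replace them by their inverses so that
`1 < c`, `1 < d` (`r` is left invariant: `c < 1 ↔ 1 < c⁻¹`); if `c < d` then `c ∈ D`, if `d < c` then `d ∈ C`. -/
def CHN_stmt : Prop := ∀ (r : LO F) (C D : Subgroup F), Cvx r C → Cvx r D → C ≤ D ∨ D ≤ C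

/-- **HCS** (medium).  `S 0 = {h}`, `S (n+1) = {a | a ∈ S n ∨ a = 1 ∨ (∃ b ∈ S n, a = b⁻¹) ∨ (∃ b ∈ S n, ∃ c ∈ S n, a = b c) ∨
(∃ b ∈ S n, ∃ c ∈ S n, b < a < c)}`; the union of the `S n` is a convex subgroup, contained in every convex subgroup
containing `h`, so it is `Hc r h`.  `{r | a ∈ S n}` is measurable by induction on `n` (countable unions, `F` is countable). -/
def HCS_stmt : Prop := ∀ a h : F, MeasurableSet {r : LO F | a ∈ Hc r h}

/-- **CVC** (short-medium).  `conj g r`: `h <^g k ↔ hg < kg ↔ g⁻¹hg < g⁻¹kg`.  So `C -> g C g⁻¹` is a bijection from the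
convex subgroups of `r` to those of `conj g r`, and the fixed points of `g C g⁻¹` are the images under `g` of those of `C`
(`g` maps `(0,1)` onto itself). -/
def CVC_stmt : Prop := ∀ (r : LO F) (g : F),
  (∀ C : Subgroup F, (Cvx (conj g r) (C.map (MulAut.conj g).toMonoidHom) ↔ Cvx r C) ∧
    Fixp ((C.map (MulAut.conj g).toMonoidHom : Subgroup F) : Set F) = g.1 '' Fixp (C : Set F)) ∧
  ∀ h : F, FH (conj g r) (g * h * g⁻¹) = g.1 '' FH r h

/-- **CMP** (short-medium).  `[a,b]` is compact and each `{t | g t = t}` is closed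
(`IsCompact.inter_iInter_nonempty` or `isCompact_iff_finite_subfamily_closed`). -/
def CMP_stmt : Prop := ∀ (S : Set F) (a b : ℝ), 0 < a → b < 1 →
  ((∃ t ∈ Fixp S, a ≤ t ∧ t ≤ b) ↔
    ∀ A : Finset F, (∀ g ∈ A, g ∈ S) → ∃ t : ℝ, a ≤ t ∧ t ≤ b ∧ ∀ g ∈ A, g.1 t = t)

/-- **FMS** (short, from HCS, CMP).  `Finset F` is countable. -/
def FMS_stmt : Prop := ∀ (h : F) (a b : ℝ), 0 < a → b < 1 →
  MeasurableSet {r : LO F | ∃ t ∈ FH r h, a ≤ t ∧ t ≤ b}

/-- **CRD** (medium).  A subset of `(0,1)` has at most `m` points iff there are no `m+1` disjoint rational intervals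
`[f 0, g 0] < .. < [f m, g m]` in `(0,1)` which all meet it.  (`<-`: if `S` is infinite or has more than `m` points, take
`m+1` of them, in increasing order (`Finset.orderEmbOfFin`), and small rational intervals around them.) -/
def CRD_stmt : Prop := ∀ (S : Set ℝ) (m : ℕ), (∀ t ∈ S, 0 < t ∧ t < 1) →
  ((S.Finite ∧ S.ncard ≤ m) ↔ ∀ f g : Fin (m + 1) → ℚ, (∀ i, 0 < f i ∧ f i ≤ g i ∧ g i < 1) →
    (∀ i j, i < j → g i < f j) → ∃ i, ¬ ∃ t ∈ S, (f i : ℝ) ≤ t ∧ t ≤ (g i : ℝ))

/-- **BMS** (short-medium, from FMS, CRD).  Two points `p < q` of `S` in `Iv k j` exist iff there are rationals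
`0 < a ≤ b < c ≤ d < 1` such that `S` meets `[a,b]` and `[c,d]`, and `[a,d] ⊆ Iv k j`. -/
def BMS_stmt : Prop := ∀ m k j : ℕ, MeasurableSet (Big m k j)

/-- **FSM** (medium, from CHN, HCX).  The sets `FH r h`, `h ≠ 1`, form a chain (CHN); the union of a chain of sets with at
most `m` points has at most `m` points (if it had `m+1` points, the largest of the `m+1` sets containing them would contain
all of them). -/
def FSM_stmt : Prop := ∀ (r : LO F) (m : ℕ),
  {t : ℝ | ∃ h : F, h ≠ 1 ∧ (FH r h).Finite ∧ (FH r h).ncard ≤ m ∧ t ∈ FH r h}.Finite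

/-- **BFM** (short-medium, from FSM).  `Iv (k+1) j ⊆ Iv k (j/2)`; and for `2^(-k)` smaller than the distances of the points
of the finite set of FSM no `Iv k j` contains two of them. -/
def BFM_stmt : Prop := (∀ (m k j : ℕ) (r : LO F), r ∈ Big m (k + 1) j → r ∈ Big m k (j / 2)) ∧
  ∀ (m : ℕ) (r : LO F), ∃ K : ℕ, ∀ k, K ≤ k → ∀ j : ℕ, r ∉ Big m k j

/-- **BEQ** (short-medium, from SND, CVC).  `h -> g h g⁻¹`, `p -> g p`, `Set.ncard_image_of_injective`; for the converse use
`g⁻¹` (`conj g⁻¹ (conj g r) = r`). -/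
def BEQ_stmt : Prop := ∀ (m : ℕ) (g : F) (k j k' j' : ℕ), Sends g k j k' j' →
  ∀ r : LO F, (r ∈ Big m k j ↔ conj g r ∈ Big m k' j')

/-- **WDM** (medium, from CHN, HCX).  Principal convex subgroups suffice.  Let `C` with finite `Fixp C` meet `(a,b)`.  Take
an interval in `(0,1)` disjoint from the finite set `Fixp C` and `C'` for it: `Fixp C'` is finite and not contained in
`Fixp C`, so not `C ≤ C'`, so `C' ≤ C` (CHN) and `C' ≠ C`; take `h ∈ C \ C'` (`h ≠ 1`): `C' ≤ Hc r h` (CHN: `h ∉ C'`) and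
`Hc r h ≤ C`, so `Fixp C ⊆ FH r h ⊆ Fixp C'`.  Converse: `C = Hc r h`, `h ≠ 1`; rational `a < b` suffice. -/
def WDM_stmt : Prop := ∀ r : LO F, (r ∈ W ↔ ∀ a b : ℚ, 0 ≤ a → a < b → b ≤ 1 →
  ∃ h : F, h ≠ 1 ∧ (FH r h).Finite ∧ ∃ t ∈ FH r h, (a : ℝ) < t ∧ t < (b : ℝ))

/-- **WMS** (short-medium, from FMS, CRD, WDM). -/
def WMS_stmt : Prop := MeasurableSet W

/-- **WIN** (short-medium, from CVC). -/
def WIN_stmt : Prop := ∀ (r : LO F) (g : F), r ∈ W → conj g r ∈ W

/-- **WEX** (medium, from CHN, HCX, WDM).  For `(k,j)` take two disjoint open intervals with rational end points inside it,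
`h₁`, `h₂` for them; `FH r h₁ ⊆ FH r h₂` or conversely, so one of them contains both points `p < q`; `M_j` = its number of
points; `M = max M_j`. -/
def WEX_stmt : Prop := W ⊆ Lim Big

/-- **HYP** (short-medium, from BMS, BFM, BEQ, WEX, CRI).  `X = LO F`, `act = conj`; the diagonal of `LO F` is measurable
(countably many coordinates in `Bool`); `HyperfiniteOn` for a larger set implies it for `W`. -/
def HYP_stmt : Prop := HyperfiniteOn W (Elo F)

/-! ### Part C: lexicographic orders -/

/-- an injective sequence in `(0,1)` with dense range -/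
def DenseSeq (x : ℕ → ℝ) : Prop := (∀ n, 0 < x n ∧ x n < 1) ∧ Function.Injective x ∧
  ∀ a b : ℝ, 0 ≤ a → a < b → b ≤ 1 → ∃ n, a < x n ∧ x n < b

/-- `g < h` iff at the first point `x n` where they differ `g` is below `h` (if `s n = true`) or above `h`
(if `s n = false`) -/
def LexLt (x : ℕ → ℝ) (s : ℕ → Bool) (g h : F) : Prop :=
  ∃ n, (∀ i < n, g.1 (x i) = h.1 (x i)) ∧
    ((s n = true ∧ g.1 (x n) < h.1 (x n)) ∨ (s n = false ∧ h.1 (x n) < g.1 (x n)))

/-- `r` is the lexicographic order of the sequence `x` with the signs `s` -/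
def IsLex (r : LO F) (x : ℕ → ℝ) (s : ℕ → Bool) : Prop := ∀ g h : F, r.1 (g, h) = true ↔ LexLt x s g h

/-- **LXO** (medium).  `r = decide (LexLt x s g h)` (classical).  Irreflexive; transitive (compare the two first indices);
total: if `g ≠ h` they differ at some point, by continuity on an open interval (both are the identity outside `(0,1)`), so
at some `x n`; take the first; left invariant: `f` is increasing. -/
def LXO_stmt : Prop := ∀ (x : ℕ → ℝ) (s : ℕ → Bool), DenseSeq x → ∃ r : LO F, IsLex r x s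

/-- **GEN** (medium; as in `exists_down` of `Pool/Agent/helper46/LOF/Elem.lean`: `g = (Aff m a)⁻¹ * (X0 * Aff m a)`). -/
def GEN_stmt : Prop := ∀ (a : ℝ) (m : ℕ), IsDyadic a → 0 ≤ a → a + 1 / 2 ^ m ≤ 1 →
  ∃ g : F, (∀ t : ℝ, t ≤ a ∨ a + 1 / 2 ^ m ≤ t → g.1 t = t) ∧
    ∀ u : ℝ, 0 ≤ u → u ≤ 1 → g.1 (a + u / 2 ^ m) = a + X0 u / 2 ^ m

/-- **BMP** (short-medium, from GEN).  Choose `m` and a dyadic `c` with `a < c < t < c + 2^(-m) < b`; `X0 u < u` for
`0 < u < 1`; GEN gives `g` with `g t < t`; its inverse moves `t` up. -/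
def BMP_stmt : Prop := ∀ a t b : ℝ, 0 ≤ a → a < t → t < b → b ≤ 1 →
  ∃ g : F, (∀ z : ℝ, z ≤ a ∨ b ≤ z → g.1 z = z) ∧ g.1 t < t ∧ t < (g⁻¹ : F).1 t

/-- **LXW** (medium, from BMP).  `C = {g | g fixes x 0, .., x n}` is convex (if `g < h < g'`, `g, g' ∈ C` and `h` moves
some `x i`, `i ≤ n`, take the first: both inequalities contradict each other), `≠ 1`, and `Fixp C = {x 0, .., x n}` (for other
`t` BMP in a small interval without the `x i`); `n` with `x n ∈ (a,b)`. -/
def LXW_stmt : Prop := ∀ (r : LO F) (x : ℕ → ℝ) (s : ℕ → Bool), DenseSeq x → IsLex r x s → r ∈ W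

/-- **LIN** (medium, from BMP).  The sequence is determined by the order (signs known).  If `x i = y i` for `i < n` and
`x n ≠ y n`: take `g` from BMP moving `x n` down and `g'` moving `y n` up, with supports in disjoint small intervals
around `x n`, `y n` that do not contain `x i`, `i < n`; the product `g g'` is `< 1` for one of the two orders and `> 1` for
the other. -/
def LIN_stmt : Prop := ∀ (r : LO F) (x y : ℕ → ℝ) (s : ℕ → Bool), DenseSeq x → DenseSeq y → IsLex r x s →
  IsLex r y s → x = y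

/-- **LCJ** (short).  `conj g r`: `h <^g k ↔ hg < kg`. -/
def LCJ_stmt : Prop := ∀ (r : LO F) (x : ℕ → ℝ) (s : ℕ → Bool) (g : F), IsLex r x s →
  IsLex (conj g r) (fun n => g.1 (x n)) s

/-! ### Part D: `E_lo(F)` is not smooth on `W` -/

/-- the numerator of the path interval of level `2 i`: the digits are `10` if `c i = true`, `01` if `c i = false` -/
def pth (c : ℕ → Bool) : ℕ → ℕ
  | 0 => 0
  | i + 1 => 4 * pth c i + (if c i = true then 2 else 1)

/-- level of the `i`-th sibling of the path on the left (`b = true`) or on the right (`b = false`) -/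
def lev (c : ℕ → Bool) (i : ℕ) (b : Bool) : ℕ := if b = c i then 2 * i + 1 else 2 * i + 2

/-- numerator of the `i`-th sibling of the path on the left (`b = true`) or on the right (`b = false`) -/
def num (c : ℕ → Bool) (i : ℕ) (b : Bool) : ℕ :=
  if b = c i then (if b = true then 2 * pth c i else 2 * pth c i + 1)
  else (if b = true then 4 * pth c i else 4 * pth c i + 3)

/-- the point with the relative position `q` in the `i`-th sibling -/
noncomputable def pnt (q : ℕ → ℝ) (c : ℕ → Bool) (z : ℕ × ℕ × Bool) : ℝ :=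
  ((num c z.1 z.2.2 : ℝ) + q z.2.1) / 2 ^ lev c z.1 z.2.2

/-- an enumeration of the triples `(i, j, b)` (a bijection; `2 * Nat.pair i j + (if b then 0 else 1)` is the index) -/
def dec (n : ℕ) : ℕ × ℕ × Bool := ((Nat.unpair (n / 2)).1, (Nat.unpair (n / 2)).2, decide (n % 2 = 0))

/-- the sequence of all these points -/
noncomputable def seq (q : ℕ → ℝ) (c : ℕ → Bool) (n : ℕ) : ℝ := pnt q c (dec n)

/-- **XSD** (medium).  The siblings `(lev, num)` are pairwise disjoint, disjoint from the path interval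
`[pth c i / 4^i, (pth c i + 1) / 4^i)` of later index, and with it they fill `[0,1)` up to level `2i`.  A small interval
`(a,b)` contains a point different from the limit `t` of the path, so an open piece of some sibling. -/
def XSD_stmt : Prop := ∀ (q : ℕ → ℝ) (c : ℕ → Bool), DenseSeq q → DenseSeq (seq q c)

/-- **XSF** (medium, from GEN).  `c'` = `c` with the value at `N` changed.  Say `c N = true`.  `g` from GEN for the path
interval `a = pth c N / 4^N`, `m = 2N`: `[0,1/2] -> [0,1/4]` (left sibling of `c` to the left sibling of `c'`),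
`[1/2,3/4] -> [1/4,1/2]` (path), `[3/4,1] -> [1/2,1]` (right siblings); inside the path interval it is a translation by
`-2^(-2N-2)`, as `pth c' i = pth c i - 4^(i-N-1)` for `i > N`; the earlier siblings are fixed.  If `c N = false` use `g⁻¹`. -/
def XSF_stmt : Prop := ∀ (q : ℕ → ℝ) (c : ℕ → Bool) (N : ℕ), DenseSeq q →
  ∃ g : F, ∀ n, g.1 (seq q c n) = seq q (Function.update c N (!c N)) n

/-- **XCI** (short-medium).  Let `i` be the least index with `c i ≠ c' i`; `pth` agree at `i`; the points for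
`(i, 0, true)` are `(2P + q 0)/2^(2i+1)` and `(4P + q 0)/2^(2i+2)`, different as `q 0 > 0`. -/
def XCI_stmt : Prop := ∀ (q : ℕ → ℝ), DenseSeq q → Function.Injective (seq q)

/-- **XMS** (medium).  `seq q c n` depends only on `c 0, .., c i` for some `i` (depending on `n`), so
`{c | g (seq q c n) < h (seq q c n)}` is measurable (a function of finitely many coordinates in `Bool`), and `LexLt` is a
countable combination of such conditions. -/
def XMS_stmt : Prop := ∀ (q : ℕ → ℝ) (s : ℕ → Bool) (Φ : (ℕ → Bool) → LO F), DenseSeq q →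
  (∀ c, IsLex (Φ c) (seq q c) s) → Measurable Φ

/-- the fair coin measure -/
noncomputable def fair : Measure (ℕ → Bool) := Measure.infinitePi fun _ => coin

/-- **ERG** (medium).  For `A = {f < a}` and `E` depending on the first `n` coordinates: flips preserve `fair` and `A`, so
`fair (A ∩ {c = w on i < n})` is the same for all `w`, equal to `fair A / 2^n`; so `fair (A ∩ E) = fair A * fair E` for all
measurable `E` (pi-lambda), in particular `E = A`: `fair A ∈ {0,1}`; `a₀ = sup {a | fair {f < a} = 0}`.  Compare `bern_flip` in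
`Pool/Agent/helper46/LOF/Final.lean`. -/
def ERG_stmt : Prop := ∀ f : (ℕ → Bool) → ℝ, Measurable f → (∀ c N, f (Function.update c N (!c N)) = f c) →
  ∃ a : ℝ, fair {c | f c ≠ a} = 0

/-- **NAT** (short).  Points have measure `0` (`≤ 2^(-n)` for all `n`). -/
def NAT_stmt : Prop := ∀ S : Set (ℕ → Bool), S.Countable → fair S = 0

/-- **NSM** (short-medium, from LXO, LXW, LIN, LCJ, XSD, XSF, XCI, XMS, ERG, NAT).  Fix a dense sequence `q` (an enumeration
of the rationals in `(0,1)`) and `s = true`; `Φ c` from LXO for `seq q c`.  If `f` is measurable and constant exactly on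
the classes in `W`, then `f ∘ Φ` is invariant under flips (XSF, LCJ, LXW), so equal to `a` outside a null set (ERG).  But
`{c | f (Φ c) = a}` is countable: all these `Φ c` are conjugate to one `Φ c₀`, `Φ c = conj g (Φ c₀)` determines `seq q c` by `g`
(LIN), so `c` (XCI), and `F` is countable.  Contradiction with NAT and `fair univ = 1`. -/
def NSM_stmt : Prop := ¬ ∃ f : LO F → ℝ, Measurable f ∧ ∀ r ∈ W, ∀ s ∈ W, (Elo F r s ↔ f r = f s)

/-- the final theorem -/
def FIN_stmt : Prop := CRI_stmt ∧ MeasurableSet W ∧ (∀ (r : LO F) (g : F), r ∈ W → conj g r ∈ W) ∧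
  HyperfiniteOn W (Elo F) ∧
  (∀ (x : ℕ → ℝ) (s : ℕ → Bool), DenseSeq x → ∃ r ∈ W, IsLex r x s) ∧
  ¬ ∃ f : LO F → ℝ, Measurable f ∧ ∀ r ∈ W, ∀ s ∈ W, (Elo F r s ↔ f r = f s)

end Pool.Agent.OFP
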