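import Mathlib
import Pool.Agent.helper11.OFP.Spec

set_option autoImplicit false

open Pool.Agent.LOF MeasureTheory

namespace Pool.Agent.OFP

theorem EQU_unit (g : F) (t : ℝ) (h0 : 0 ≤ t) (h1 : t < 1) : 0 ≤ g.1 t ∧ g.1 t < 1 := by
  have e0 : g.1 0 = 0 := F.out g.2 (by simp)
  have e1 : g.1 1 = 1 := F.out g.2 (by simp)
  constructor
  · rw [← e0]
    exact g.1.monotone h0
  · rw [← e1]
    exact g.1.strictMono h1

theorem EQU_refl {X : Type} [MeasurableSpace X] (hSND : SND_stmt) (act : F → X → X) (B : ℕ → ℕ → ℕ → Set X)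
    (hact : Act act) (n : ℕ) (x : X) : Rel act B n x x := by
  refine ⟨1, (hact.one x).symm, fun m _ k j hl => ⟨k, j, hSND.2.2.1 k j, ?_⟩⟩
  rw [hact.one x]
  exact hl

theorem EQU_trans {X : Type} [MeasurableSpace X] (hSND : SND_stmt) (act : F → X → X) (B : ℕ → ℕ → ℕ → Set X)
    (hact : Act act) (n : ℕ) (x y z : X) (h1 : Rel act B n x y) (h2 : Rel act B n y z) : Rel act B n x z := by
  obtain ⟨g, rfl, hg⟩ := h1
  obtain ⟨h, rfl, hh⟩ := h2
  refine ⟨h * g, (hact.mul h g x).symm, fun m hm k j hl => ?_⟩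
  obtain ⟨k', j', hs, hl'⟩ := hg m hm k j hl
  obtain ⟨k'', j'', hs', hl''⟩ := hh m hm k' j' hl'
  refine ⟨k'', j'', hSND.1 g h k j k' j' k'' j'' hs hs', ?_⟩
  rw [hact.mul h g x]
  exact hl''

theorem EQU_symm {X : Type} [MeasurableSpace X] (hTR1 : TR1_stmt) (hSND : SND_stmt) (act : F → X → X)
    (B : ℕ → ℕ → ℕ → Set X) (hact : Act act) (hB : Fam act B) (n : ℕ) (x y : X) (h1 : Rel act B n x y) :
    Rel act B n y x := by
  obtain ⟨g, rfl, hg⟩ := h1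
  have hback : act g⁻¹ (act g x) = x := by
    rw [← hact.mul, inv_mul_cancel, hact.one]
  refine ⟨g⁻¹, hback.symm, fun m hm k' j' hl => ?_⟩
  obtain ⟨hex, _, _⟩ := hTR1 (fun k j => x ∈ B m k j) (fun k j hj h => hB.mono m k j x hj h) (hB.fin m x)
  obtain ⟨_, huq, _⟩ := hTR1 (fun k j => act g x ∈ B m k j) (fun k j hj h => hB.mono m k j (act g x) hj h)
    (hB.fin m (act g x))
  have hpos : (0 : ℝ) < 2 ^ k' := by positivity
  have ht0 : 0 ≤ (j' : ℝ) / 2 ^ k' := by positivity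
  have ht1 : (j' : ℝ) / 2 ^ k' < 1 := by
    rw [div_lt_one hpos]
    have := hl.1
    exact_mod_cast this
  have htm : (j' : ℝ) / 2 ^ k' ∈ Iv k' j' := by
    have e : (j' : ℝ) / 2 ^ k' * 2 ^ k' = j' := by field_simp
    constructor
    · rw [e]
    · rw [e]; linarith
  obtain ⟨hs0, hs1⟩ := EQU_unit g⁻¹ _ ht0 ht1
  obtain ⟨k, j, hlf, hmem⟩ := hex _ hs0 hs1
  obtain ⟨k1, j1, hs, hl1⟩ := hg m hm k j hlf
  have h6 := (hSND.2.2.2.1 g k j k1 j1 hs _).mp hmem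
  have e : g.1 ((g⁻¹ : F).1 ((j' : ℝ) / 2 ^ k')) = (j' : ℝ) / 2 ^ k' := g.1.apply_symm_apply _
  rw [e] at h6
  obtain ⟨e1, e2⟩ := huq _ _ _ _ _ hl1 hl h6 htm
  subst e1
  subst e2
  refine ⟨k, j, hSND.2.1 g k j k1 j1 hs, ?_⟩
  rw [hback]
  exact hlf

theorem EQU (hTR1 : TR1_stmt) (hSND : SND_stmt) : EQU_stmt := by
  intro X _ act B hact hB n
  exact ⟨fun x => EQU_refl hSND act B hact n x, fun {x y} h => EQU_symm hTR1 hSND act B hact hB n x y h,
    fun {x y z} h1 h2 => EQU_trans hSND act B hact n x y z h1 h2⟩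

end Pool.Agent.OFP
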