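import Mathlib
import Pool.Agent.helper11.OFP.Spec

set_option autoImplicit false

open Pool.Agent.LOF MeasureTheory

namespace Pool.Agent.OFP

theorem EXH (hSND : SND_stmt) (hSTD : STD_stmt) : EXH_stmt := by
  intro X _ act B hact hB x hx g
  obtain ⟨N, hN⟩ := hSTD g
  choose M hM using hx
  -- a common bound for the levels ≤ N
  refine ⟨(Finset.range (N + 1)).sup M, fun m hm k j hl => ?_⟩
  have hbig : ∀ l, l ≤ N → ∀ i, i < 2 ^ l → x ∈ B m l i := by
    intro l hlN i hi
    apply hM l m _ i hi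
    have : M l ≤ (Finset.range (N + 1)).sup M := Finset.le_sup (Finset.mem_range.mpr (by omega))
    omega
  have hk : N < k := by
    by_contra hn
    push Not at hn
    exact hl.2.1 (hbig k hn j hl.1)
  obtain ⟨l, rfl⟩ : ∃ l, k = l + 1 := ⟨k - 1, by omega⟩
  have hi : j / 2 < 2 ^ l := by
    have := hl.1
    rw [pow_succ] at this
    omega
  obtain ⟨l', i', hi', hs⟩ := hN l (by omega) (j / 2) hi
  have hchild := hSND.2.2.2.2 g l (j / 2) l' i' (j % 2) (Nat.mod_lt _ (by norm_num)) hs
  have ej : 2 * (j / 2) + j % 2 = j := by omega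
  rw [ej] at hchild
  have hlt : 2 * i' + j % 2 < 2 ^ (l' + 1) := by
    rw [pow_succ]
    omega
  have hpar : x ∈ B m l (j / 2) := by
    rcases hl.2.2 with h | h
    · omega
    · exact h
  refine ⟨l' + 1, 2 * i' + j % 2, hchild, hlt, ?_, Or.inr ?_⟩
  · intro h
    exact hl.2.1 ((hB.equi m g (l + 1) j (l' + 1) (2 * i' + j % 2) hl.1 hlt hchild x).mpr h)
  · have e1 : (2 * i' + j % 2) / 2 = i' := by omega
    rw [Nat.add_sub_cancel, e1]
    exact (hB.equi m g l (j / 2) l' i' hi hi' hs x).mp hpar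

end Pool.Agent.OFP
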