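import Mathlib
import Pool.Agent.helper11.OFP.Spec

set_option autoImplicit false

open Pool.Agent.LOF MeasureTheory

namespace Pool.Agent.OFP

theorem FCL_unit (g : F) (t : ℝ) (h0 : 0 ≤ t) (h1 : t < 1) : 0 ≤ g.1 t ∧ g.1 t < 1 := by
  have e0 : g.1 0 = 0 := F.out g.2 (by simp)
  have e1 : g.1 1 = 1 := F.out g.2 (by simp)
  constructor
  · rw [← e0]
    exact g.1.monotone h0
  · rw [← e1]
    exact g.1.strictMono h1

theorem FCL_inv (g : F) (t : ℝ) : g.1 ((g⁻¹ : F).1 t) = t := g.1.apply_symm_apply t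

theorem FCL_val (g : F) (k j k' j' : ℕ) (h : Sends g k j k' j') (t : ℝ) (ht : t ∈ Iv k j) :
    g.1 t = ((j' : ℝ) + (t * 2 ^ k - j)) / 2 ^ k' := by
  have h1 := h (t * 2 ^ k - j) (by have := ht.1; linarith) (by have := ht.2; linarith)
  have e : ((j : ℝ) + (t * 2 ^ k - j)) / 2 ^ k = t := by
    have : (2 : ℝ) ^ k ≠ 0 := by positivity
    field_simp
    ring
  rw [e] at h1
  exact h1

theorem FCL_mono {X : Type} [MeasurableSpace X] {act : F → X → X} {B : ℕ → ℕ → ℕ → Set X}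
    (hB : Fam act B) (m : ℕ) (x : X) : MonoB (fun k j => x ∈ B m k j) :=
  fun k j hj h => hB.mono m k j x hj h

theorem FCL_fin {X : Type} [MeasurableSpace X] {act : F → X → X} {B : ℕ → ℕ → ℕ → Set X}
    (hB : Fam act B) (m : ℕ) (x : X) : FinB (fun k j => x ∈ B m k j) := hB.fin m x

theorem FCL (hTR1 : TR1_stmt) (hTR2 : TR2_stmt) (hSND : SND_stmt) : FCL_stmt := by
  intro X _ act B hact hB n x
  obtain ⟨hex, huq, hfinL⟩ := hTR1 _ (FCL_mono hB n x) (FCL_fin hB n x)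
  set Λ : Set (ℕ × ℕ) := {q | LeafB (fun k j => x ∈ B n k j) q.1 q.2} with hΛ
  set L := Λ.ncard with hL
  have hfinR : ((Finset.range L ×ˢ Finset.range (2 ^ L) : Finset (ℕ × ℕ)) : Set (ℕ × ℕ)).Finite :=
    Finset.finite_toSet _
  haveI : Finite Λ := hfinL.to_subtype
  -- the images
  have himg : ∀ g : {g : F | Good act B n g x}, ∀ q : Λ, ∃ r : Fin L × Fin (2 ^ L),
      Sends g.1 q.1.1 q.1.2 r.1.1 r.2.1 := by
    rintro ⟨g, hg⟩ ⟨⟨k, j⟩, hq⟩
    obtain ⟨k', j', hs, hl⟩ := hg n le_rfl k j hq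
    obtain ⟨hexy, huqy, hfiny⟩ := hTR1 _ (FCL_mono hB n (act g x)) (FCL_fin hB n (act g x))
    have h2 := hTR2 _ (FCL_mono hB n (act g x)) (FCL_fin hB n (act g x)) k' j' hl
    -- number of leaves of the image
    have h3 : {q : ℕ × ℕ | LeafB (fun k j => act g x ∈ B n k j) q.1 q.2}.ncard ≤ L := by
      have hch : ∀ q : ℕ × ℕ, ∃ r : ℕ × ℕ, q ∈ Λ → (Sends g q.1 q.2 r.1 r.2 ∧
          LeafB (fun k j => act g x ∈ B n k j) r.1 r.2) := by
        intro q
        by_cases hq : q ∈ Λ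
        · obtain ⟨k', j', h1, h2⟩ := hg n le_rfl q.1 q.2 hq
          exact ⟨(k', j'), fun _ => ⟨h1, h2⟩⟩
        · exact ⟨(0, 0), fun h => absurd h hq⟩
      choose φ hφ using hch
      have hsub : {q : ℕ × ℕ | LeafB (fun k j => act g x ∈ B n k j) q.1 q.2} ⊆ φ '' Λ := by
        rintro ⟨k1, j1⟩ hq1
        have hq1' : LeafB (fun k j => act g x ∈ B n k j) k1 j1 := hq1
        have hpos : (0 : ℝ) < 2 ^ k1 := by positivity
        have ht0 : 0 ≤ (j1 : ℝ) / 2 ^ k1 := by positivity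
        have ht1 : (j1 : ℝ) / 2 ^ k1 < 1 := by
          rw [div_lt_one hpos]
          have := hq1'.1
          exact_mod_cast this
        have htm : (j1 : ℝ) / 2 ^ k1 ∈ Iv k1 j1 := by
          have e : (j1 : ℝ) / 2 ^ k1 * 2 ^ k1 = j1 := by field_simp
          constructor
          · rw [e]
          · rw [e]; linarith
        obtain ⟨hs0, hs1⟩ := FCL_unit g⁻¹ _ ht0 ht1
        obtain ⟨k, j, hlf, hmem⟩ := hex _ hs0 hs1
        have hqΛ : ((k, j) : ℕ × ℕ) ∈ Λ := hlf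
        obtain ⟨h4, h5⟩ := hφ (k, j) hqΛ
        have h6 := (hSND.2.2.2.1 g k j _ _ h4 _).mp hmem
        rw [FCL_inv] at h6
        obtain ⟨e1, e2⟩ := huqy _ _ _ _ _ h5 hq1' h6 htm
        exact ⟨(k, j), hqΛ, Prod.ext e1 e2⟩
      calc _ ≤ (φ '' Λ).ncard := Set.ncard_le_ncard hsub (hfinL.image φ)
        _ ≤ Λ.ncard := Set.ncard_image_le hfinL
    have h4 : k' < L := by omega
    have h5 : j' < 2 ^ L := lt_of_lt_of_le hl.1 (Nat.pow_le_pow_right (by norm_num) h4.le)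
    exact ⟨(⟨k', h4⟩, ⟨j', h5⟩), hs⟩
  choose G hG using himg
  have hinj : Function.Injective G := by
    rintro ⟨g, hg⟩ ⟨g', hg'⟩ h
    have key : ∀ t : ℝ, g.1 t = g'.1 t := by
      intro t
      by_cases ht : 0 ≤ t ∧ t < 1
      · obtain ⟨k, j, hlf, hmem⟩ := hex t ht.1 ht.2
        have hqΛ : ((k, j) : ℕ × ℕ) ∈ Λ := hlf
        have h1 := hG ⟨g, hg⟩ ⟨(k, j), hqΛ⟩
        have h2 := hG ⟨g', hg'⟩ ⟨(k, j), hqΛ⟩
        rw [← h] at h2
        rw [FCL_val g _ _ _ _ h1 t hmem, FCL_val g' _ _ _ _ h2 t hmem]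
      · have hout : t ∉ Set.Ioo (0 : ℝ) 1 := fun hh => ht ⟨hh.1.le, hh.2⟩
        rw [F.out g.2 hout, F.out g'.2 hout]
    have : g = g' := Subtype.ext (RelIso.ext key)
    exact Subtype.ext this
  haveI : Finite {g : F | Good act B n g x} := Finite.of_injective G hinj
  exact Set.toFinite _

end Pool.Agent.OFP
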