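import Mathlib
import Pool.Agent.helper11.OFP.Spec

set_option autoImplicit false

open Pool.Agent.LOF MeasureTheory

namespace Pool.Agent.OFP

theorem HYP_diag : MeasurableSet {p : LO F × LO F | p.1 = p.2} := by
  have e : {p : LO F × LO F | p.1 = p.2} = ⋂ q : F × F, {p : LO F × LO F | p.1.1 q = p.2.1 q} := by
    ext p
    simp only [Set.mem_setOf_eq, Set.mem_iInter]
    constructor
    · intro h q
      rw [h]
    · intro h
      exact Subtype.ext (funext h)
  rw [e]
  refine MeasurableSet.iInter fun q => ?_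
  exact measurableSet_eq_fun ((measurable_pi_apply q).comp (measurable_subtype_coe.comp measurable_fst))
    ((measurable_pi_apply q).comp (measurable_subtype_coe.comp measurable_snd))

theorem HYP_act : Act (conj : F → LO F → LO F) where
  one r := by
    apply Subtype.ext
    funext p
    show r.1 (p.1 * 1, p.2 * 1) = r.1 p
    rw [mul_one, mul_one]
  mul g h r := by
    apply Subtype.ext
    funext p
    show r.1 (p.1 * (g * h), p.2 * (g * h)) = r.1 (p.1 * g * h, p.2 * g * h)
    rw [mul_assoc, mul_assoc]
  meas g := by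
    refine Measurable.subtype_mk ?_
    rw [measurable_pi_iff]
    intro p
    exact (measurable_pi_apply _).comp measurable_subtype_coe

theorem HYP (hBMS : BMS_stmt) (hBFM : BFM_stmt) (hBEQ : BEQ_stmt) (hWEX : WEX_stmt) (hCRI : CRI_stmt) :
    HYP_stmt := by
  have hfam : Fam (conj : F → LO F → LO F) Big := by
    refine ⟨hBMS, ?_, ?_, ?_⟩
    · intro m k j r _ h
      exact hBFM.1 m k j r h
    · intro m r
      obtain ⟨K, hK⟩ := hBFM.2 m r
      exact ⟨K, fun k hk j _ => hK k hk j⟩
    · intro m g k j k' j' _ _ hs r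
      exact hBEQ m g k j k' j' hs r
  obtain ⟨R, h1, h2, h3, h4, h5⟩ := hCRI (LO F) HYP_diag conj Big HYP_act hfam
  exact ⟨R, h1, h2, h3, h4, fun x hx y hy => h5 x (hWEX hx) y (hWEX hy)⟩

end Pool.Agent.OFP
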