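import Mathlib
import Pool.Agent.helper11.OFP.Spec

set_option autoImplicit false

open Pool.Agent.LOF MeasureTheory

namespace Pool.Agent.OFP

theorem RMS_leaf {X : Type} [MeasurableSpace X] {act : F → X → X} {B : ℕ → ℕ → ℕ → Set X}
    (hB : Fam act B) (m k j : ℕ) : MeasurableSet {x : X | LeafB (fun k j => x ∈ B m k j) k j} := by
  have e : {x : X | LeafB (fun k j => x ∈ B m k j) k j} =
      {_x : X | j < 2 ^ k} ∩ ((B m k j)ᶜ ∩ ({_x : X | k = 0} ∪ B m (k - 1) (j / 2))) := by
    ext x
    simp only [LeafB, Set.mem_setOf_eq, Set.mem_inter_iff, Set.mem_compl_iff, Set.mem_union]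
  rw [e]
  exact (MeasurableSet.const _).inter ((hB.meas m k j).compl.inter
    ((MeasurableSet.const _).union (hB.meas m (k - 1) (j / 2))))

theorem RMS_good {X : Type} [MeasurableSpace X] {act : F → X → X} {B : ℕ → ℕ → ℕ → Set X}
    (hact : Act act) (hB : Fam act B) (n : ℕ) (g : F) : MeasurableSet {x : X | Good act B n g x} := by
  have e : {x : X | Good act B n g x} = ⋂ m : ℕ, ⋂ k : ℕ, ⋂ j : ℕ,
      ({_x : X | ¬ n ≤ m} ∪ ({x : X | LeafB (fun k j => x ∈ B m k j) k j}ᶜ ∪
        ⋃ k' : ℕ, ⋃ j' : ℕ, ({_x : X | Sends g k j k' j'} ∩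
          (act g) ⁻¹' {x : X | LeafB (fun k j => x ∈ B m k j) k' j'}))) := by
    ext x
    simp only [Good, Set.mem_setOf_eq, Set.mem_iInter, Set.mem_union, Set.mem_compl_iff, Set.mem_iUnion,
      Set.mem_inter_iff, Set.mem_preimage]
    constructor
    · intro h m k j
      by_cases hm : n ≤ m
      · right
        by_cases hl : LeafB (fun k j => x ∈ B m k j) k j
        · right
          exact h m hm k j hl
        · exact Or.inl hl
      · exact Or.inl hm
    · intro h m hm k j hl
      rcases h m k j with h1 | h1 | h1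
      · exact absurd hm h1
      · exact absurd hl h1
      · exact h1
  rw [e]
  refine MeasurableSet.iInter fun m => MeasurableSet.iInter fun k => MeasurableSet.iInter fun j => ?_
  refine (MeasurableSet.const _).union ((RMS_leaf hB m k j).compl.union ?_)
  refine MeasurableSet.iUnion fun k' => MeasurableSet.iUnion fun j' => ?_
  exact (MeasurableSet.const _).inter ((hact.meas g) (RMS_leaf hB m k' j'))

theorem RMS : RMS_stmt := by
  intro X _ hdiag act B hact hB n
  have e : {p : X × X | Rel act B n p.1 p.2} = ⋃ g : F,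
      ((fun p : X × X => ((act g p.1, p.2) : X × X)) ⁻¹' {p : X × X | p.1 = p.2} ∩
        Prod.fst ⁻¹' {x : X | Good act B n g x}) := by
    ext p
    simp only [Rel, Set.mem_setOf_eq, Set.mem_iUnion, Set.mem_inter_iff, Set.mem_preimage]
    constructor
    · rintro ⟨g, h1, h2⟩
      exact ⟨g, h1.symm, h2⟩
    · rintro ⟨g, h1, h2⟩
      exact ⟨g, h1.symm, h2⟩
  rw [e]
  refine MeasurableSet.iUnion fun g => ?_
  exact ((((hact.meas g).comp measurable_fst).prodMk measurable_snd) hdiag).inter
    (measurable_fst (RMS_good hact hB n g))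

end Pool.Agent.OFP
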