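import Mathlib
import Pool.Agent.helper11.OFP.Spec

set_option autoImplicit false

open Pool.Agent.LOF MeasureTheory

namespace Pool.Agent.OFP

theorem SND_pt (g : F) (k j k' j' : ℕ) (h : Sends g k j k' j') (t : ℝ) (ht : t ∈ Iv k j) : g.1 t ∈ Iv k' j' := by
  have h0 := ht.1
  have h1 := ht.2
  have h2 := h (t * 2 ^ k - j) (by linarith) (by linarith)
  have e : ((j : ℝ) + (t * 2 ^ k - j)) / 2 ^ k = t := by
    have : (2 : ℝ) ^ k ≠ 0 := by positivity
    field_simp
    ring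
  rw [e] at h2
  have e2 : g.1 t * 2 ^ k' = (j' : ℝ) + (t * 2 ^ k - j) := by
    rw [h2]
    field_simp
  constructor
  · rw [e2]; linarith
  · rw [e2]; linarith

theorem SND_inv (g : F) (k j k' j' : ℕ) (h : Sends g k j k' j') : Sends g⁻¹ k' j' k j := by
  intro t h0 h1
  have h2 := h t h0 h1
  show g.1.symm (((j' : ℝ) + t) / 2 ^ k') = ((j : ℝ) + t) / 2 ^ k
  rw [← h2]
  exact g.1.symm_apply_apply _

theorem SND : SND_stmt := by
  refine ⟨?_, SND_inv, ?_, ?_, ?_⟩
  · intro g h k j k' j' k'' j'' h1 h2 t t0 t1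
    show h.1 (g.1 (((j : ℝ) + t) / 2 ^ k)) = _
    rw [h1 t t0 t1, h2 t t0 t1]
  · intro k j t _ _
    rfl
  · intro g k j k' j' h t
    constructor
    · exact SND_pt g k j k' j' h t
    · intro ht
      have h2 := SND_pt g⁻¹ k' j' k j (SND_inv g k j k' j' h) (g.1 t) ht
      have e : (g⁻¹ : F).1 (g.1 t) = t := g.1.symm_apply_apply t
      rwa [e] at h2
  · intro g k j k' j' e he h t t0 t1
    have he' : (e : ℝ) ≤ 1 := by
      have : e ≤ 1 := by omega
      exact_mod_cast this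
    have he0 : (0 : ℝ) ≤ e := Nat.cast_nonneg e
    have h2 := h (((e : ℝ) + t) / 2) (by positivity) (by linarith)
    have e1 : (((2 * j + e : ℕ) : ℝ) + t) / 2 ^ (k + 1) = ((j : ℝ) + ((e : ℝ) + t) / 2) / 2 ^ k := by
      push_cast
      rw [pow_succ]
      field_simp
      ring
    have e2 : (((2 * j' + e : ℕ) : ℝ) + t) / 2 ^ (k' + 1) = ((j' : ℝ) + ((e : ℝ) + t) / 2) / 2 ^ k' := by
      push_cast
      rw [pow_succ]
      field_simp
      ring
    rw [e1, e2]
    exact h2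

end Pool.Agent.OFP
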