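import Mathlib
import Pool.Agent.helper11.OFP.Spec

set_option autoImplicit false

open Pool.Agent.LOF MeasureTheory

namespace Pool.Agent.OFP

theorem STD_level (B : Finset ℝ) (hB : ∀ b ∈ B, IsDyadic b) : ∃ n : ℕ, ∀ b ∈ B, ∃ a : ℤ, b = (a : ℝ) / 2 ^ n := by
  classical
  induction B using Finset.induction_on with
  | empty => exact ⟨0, fun b hb => absurd hb (Finset.notMem_empty b)⟩
  | insert x B hx ih =>
    obtain ⟨n, hn⟩ := ih (fun b hb => hB b (Finset.mem_insert_of_mem hb))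
    obtain ⟨a, m, ham⟩ := hB x (Finset.mem_insert_self x B)
    refine ⟨n + m, fun b hb => ?_⟩
    rw [Finset.mem_insert] at hb
    rcases hb with rfl | hb
    · refine ⟨a * 2 ^ n, ?_⟩
      rw [ham]
      push_cast
      rw [pow_add]
      field_simp
    · obtain ⟨a', ha'⟩ := hn b hb
      refine ⟨a' * 2 ^ m, ?_⟩
      rw [ha']
      push_cast
      rw [pow_add]
      field_simp

theorem STD_unit (g : F) (t : ℝ) (h0 : 0 ≤ t) (h1 : t < 1) : 0 ≤ g.1 t ∧ g.1 t < 1 := by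
  have e0 : g.1 0 = 0 := F.out g.2 (by simp)
  have e1 : g.1 1 = 1 := F.out g.2 (by simp)
  constructor
  · rw [← e0]
    exact g.1.monotone h0
  · rw [← e1]
    exact g.1.strictMono h1

/-- on the intervals of level `n` the map is affine with dyadic constant -/
theorem STD_piece (g : F) (n : ℕ) (B : Finset ℝ) (hn : ∀ b ∈ B, ∃ a : ℤ, b = (a : ℝ) / 2 ^ n)
    (hPL : PLWith g.1 B) (i : ℕ) : ∃ (e : ℤ) (a : ℤ) (m : ℕ), ∀ z : ℝ, (i : ℝ) / 2 ^ n ≤ z →
      z ≤ ((i : ℝ) + 1) / 2 ^ n → g.1 z = (2 : ℝ) ^ e * z + (a : ℝ) / 2 ^ m := by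
  have hp : (0 : ℝ) < 2 ^ n := by positivity
  have hlt : (i : ℝ) / 2 ^ n < ((i : ℝ) + 1) / 2 ^ n := by
    rw [div_lt_div_iff_of_pos_right hp]
    linarith
  obtain ⟨e, c, hc⟩ := hPL _ _ hlt (by
    intro b hb
    obtain ⟨a, rfl⟩ := hn b hb
    rcases le_or_gt a (i : ℤ) with h | h
    · left
      rw [div_le_div_iff_of_pos_right hp]
      exact_mod_cast h
    · right
      rw [div_le_div_iff_of_pos_right hp]
      have : ((i : ℤ) : ℝ) + 1 ≤ a := by exact_mod_cast h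
      simpa using this)
  have hz := hc ((i : ℝ) / 2 ^ n) ⟨le_rfl, hlt.le⟩
  have hd : IsDyadic ((i : ℝ) / 2 ^ n) := ⟨(i : ℤ), n, by push_cast; rfl⟩
  have hcd : IsDyadic c := by
    have e1 : c = g.1 ((i : ℝ) / 2 ^ n) - (2 : ℝ) ^ e * ((i : ℝ) / 2 ^ n) := by
      rw [hz]; ring
    rw [e1]
    exact (F.dyadic g.2 hd).sub (hd.pow_mul e)
  obtain ⟨a, m, rfl⟩ := hcd
  exact ⟨e, a, m, fun z h0 h1 => hc z ⟨h0, h1⟩⟩

theorem STD : STD_stmt := by
  intro g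
  obtain ⟨B, hB, hPL⟩ := g.2.2
  obtain ⟨n, hn⟩ := STD_level B hB
  choose e a m hpiece using STD_piece g n B hn hPL
  refine ⟨n + (Finset.range (2 ^ n)).sup (fun i => (e i).natAbs + m i), fun k hk j hj => ?_⟩
  -- the piece
  have hnk : n ≤ k := by omega
  set i : ℕ := j / 2 ^ (k - n) with hi
  have hk2 : 2 ^ k = 2 ^ n * 2 ^ (k - n) := by
    rw [← pow_add]
    congr 1
    omega
  have hin : i < 2 ^ n := by
    rw [hi, Nat.div_lt_iff_lt_mul (by positivity), ← hk2]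
    exact hj
  have hsup : (e i).natAbs + m i ≤ (Finset.range (2 ^ n)).sup (fun i => (e i).natAbs + m i) :=
    Finset.le_sup (f := fun i => (e i).natAbs + m i) (Finset.mem_range.mpr hin)
  have hbound : n + ((e i).natAbs + m i) ≤ k := by omega
  have hp0 : (0 : ℝ) < 2 ^ (k - n) := by positivity
  have hpn : (0 : ℝ) < 2 ^ n := by positivity
  have hpk : (0 : ℝ) < 2 ^ k := by positivity
  have hk2r : (2 : ℝ) ^ k = 2 ^ n * 2 ^ (k - n) := by exact_mod_cast hk2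
  -- the target level
  obtain ⟨k', hk'⟩ : ∃ k' : ℕ, (k' : ℤ) = (k : ℤ) - e i := by
    refine ⟨((k : ℤ) - e i).toNat, ?_⟩
    rw [Int.toNat_of_nonneg]
    have : e i ≤ (e i).natAbs := Int.le_natAbs
    omega
  have hmk : m i ≤ k' := by
    have : e i ≤ (e i).natAbs := Int.le_natAbs
    omega
  have hpk' : (0 : ℝ) < 2 ^ k' := by positivity
  have hpow : (2 : ℝ) ^ (e i) * (1 / 2 ^ k) = 1 / 2 ^ k' := by
    have h1 : (2 : ℝ) ^ k' = 2 ^ (k : ℤ) / 2 ^ (e i) := by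
      rw [← zpow_natCast, hk', zpow_sub₀ (by norm_num)]
    rw [h1, zpow_natCast]
    have h2 : (2 : ℝ) ^ (e i) ≠ 0 := zpow_ne_zero _ (by norm_num)
    field_simp
  have hJ : ((a i : ℝ) / 2 ^ m i) = ((a i * 2 ^ (k' - m i) : ℤ) : ℝ) / 2 ^ k' := by
    push_cast
    have h3 : (2 : ℝ) ^ k' = 2 ^ m i * 2 ^ (k' - m i) := by
      rw [← pow_add]
      congr 1
      omega
    rw [h3]
    field_simp
  set J : ℤ := (j : ℤ) + a i * 2 ^ (k' - m i) with hJdef
  have hval : ∀ t : ℝ, 0 ≤ t → t ≤ 1 → g.1 (((j : ℝ) + t) / 2 ^ k) = ((J : ℝ) + t) / 2 ^ k' := by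
    intro t t0 t1
    have hlo : (i : ℝ) / 2 ^ n ≤ ((j : ℝ) + t) / 2 ^ k := by
      rw [hk2r, div_le_div_iff₀ hpn (by positivity)]
      have h4 : i * 2 ^ (k - n) ≤ j := Nat.div_mul_le_self j _
      have h5 : (i : ℝ) * 2 ^ (k - n) ≤ j := by exact_mod_cast h4
      nlinarith
    have hhi : ((j : ℝ) + t) / 2 ^ k ≤ ((i : ℝ) + 1) / 2 ^ n := by
      rw [hk2r, div_le_div_iff₀ (by positivity) hpn]
      have h4 : j < (i + 1) * 2 ^ (k - n) := by
        rw [hi]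
        exact Nat.lt_mul_of_div_lt (Nat.lt_succ_self _) (by positivity)
      have h5 : (j : ℝ) + 1 ≤ ((i : ℝ) + 1) * 2 ^ (k - n) := by exact_mod_cast h4
      nlinarith
    rw [hpiece i _ hlo hhi, hJ]
    have h6 : (2 : ℝ) ^ (e i) * (((j : ℝ) + t) / 2 ^ k) = ((j : ℝ) + t) * ((2 : ℝ) ^ (e i) * (1 / 2 ^ k)) := by
      ring
    rw [h6, hpow, hJdef]
    push_cast
    ring
  -- position
  have h0 := hval 0 le_rfl zero_le_one
  have hj0 : (0 : ℝ) ≤ ((j : ℝ) + 0) / 2 ^ k := by positivity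
  have hj1 : ((j : ℝ) + 0) / 2 ^ k < 1 := by
    rw [div_lt_one hpk, add_zero]
    exact_mod_cast hj
  obtain ⟨hu0, hu1⟩ := STD_unit g _ hj0 hj1
  rw [h0, add_zero] at hu0 hu1
  have hJ0 : 0 ≤ J := by
    have : (0 : ℝ) ≤ J := by
      by_contra hneg
      push Not at hneg
      have : (J : ℝ) / 2 ^ k' < 0 := div_neg_of_neg_of_pos hneg hpk'
      linarith
    exact_mod_cast this
  have hJ1 : J < 2 ^ k' := by
    rw [div_lt_one hpk'] at hu1
    exact_mod_cast hu1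
  obtain ⟨j', hj'⟩ : ∃ j' : ℕ, (j' : ℤ) = J := ⟨J.toNat, Int.toNat_of_nonneg hJ0⟩
  refine ⟨k', j', ?_, ?_⟩
  · have : (j' : ℤ) < 2 ^ k' := by rw [hj']; exact hJ1
    exact_mod_cast this
  · intro t t0 t1
    rw [hval t t0 t1, ← hj']
    push_cast
    rfl

end Pool.Agent.OFP
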