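import Mathlib
import Pool.Agent.helper11.OFP.Spec

set_option autoImplicit false

open Pool.Agent.LOF MeasureTheory

namespace Pool.Agent.OFP

/-- the subtree below the child `e` of the root -/
def TR2_sub (B : ℕ → ℕ → Prop) (e : ℕ) (k j : ℕ) : Prop := B (k + 1) (e * 2 ^ k + j)

theorem TR2_mono (B : ℕ → ℕ → Prop) (hB : MonoB B) (e : ℕ) (he : e < 2) : MonoB (TR2_sub B e) := by
  intro k j hj h
  have hlt : e * 2 ^ (k + 1) + j < 2 ^ (k + 1 + 1) := by
    rw [pow_succ 2 (k + 1)]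
    interval_cases e <;> omega
  have h1 := hB (k + 1) (e * 2 ^ (k + 1) + j) hlt h
  have e1 : (e * 2 ^ (k + 1) + j) / 2 = e * 2 ^ k + j / 2 := by
    rw [pow_succ, ← mul_assoc]
    omega
  rw [e1] at h1
  exact h1

theorem TR2_fin (B : ℕ → ℕ → Prop) (hF : FinB B) (e : ℕ) (he : e < 2) : FinB (TR2_sub B e) := by
  obtain ⟨K, hK⟩ := hF
  refine ⟨K, fun k hk j hj h => hK (k + 1) (by omega) (e * 2 ^ k + j) ?_ h⟩
  rw [pow_succ]
  interval_cases e <;> omega

theorem TR2_leaf (B : ℕ → ℕ → Prop) (h0 : B 0 0) (e : ℕ) (he : e < 2) (k j : ℕ) (hj : j < 2 ^ k) :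
    LeafB (TR2_sub B e) k j ↔ LeafB B (k + 1) (e * 2 ^ k + j) := by
  unfold LeafB
  have hlt : e * 2 ^ k + j < 2 ^ (k + 1) := by
    rw [pow_succ]
    interval_cases e <;> omega
  have key : (k = 0 ∨ TR2_sub B e (k - 1) (j / 2)) ↔ (k + 1 = 0 ∨ B (k + 1 - 1) ((e * 2 ^ k + j) / 2)) := by
    rcases Nat.eq_zero_or_pos k with hk | hk
    · subst hk
      have hj0 : j = 0 := by simpa using hj
      subst hj0
      have e1 : (e * 2 ^ 0 + 0) / 2 = 0 := by
        interval_cases e <;> rfl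
      rw [e1]
      exact ⟨fun _ => Or.inr h0, fun _ => Or.inl rfl⟩
    · obtain ⟨l, rfl⟩ : ∃ l, k = l + 1 := ⟨k - 1, by omega⟩
      have e1 : (e * 2 ^ (l + 1) + j) / 2 = e * 2 ^ l + j / 2 := by
        rw [pow_succ, ← mul_assoc]
        omega
      rw [e1]
      unfold TR2_sub
      constructor
      · rintro (h | h)
        · omega
        · exact Or.inr h
      · rintro (h | h)
        · omega
        · exact Or.inr h
  rw [key]
  constructor
  · rintro ⟨_, h2, h3⟩
    exact ⟨hlt, h2, h3⟩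
  · rintro ⟨_, h2, h3⟩
    exact ⟨hj, h2, h3⟩

/-- the embedding of the subtree -/
def TR2_emb (e : ℕ) (q : ℕ × ℕ) : ℕ × ℕ := (q.1 + 1, e * 2 ^ q.1 + q.2)

theorem TR2_emb_inj (e : ℕ) : Function.Injective (TR2_emb e) := by
  rintro ⟨k, j⟩ ⟨k', j'⟩ h
  have h1 : k + 1 = k' + 1 := congrArg Prod.fst h
  have h2 : e * 2 ^ k + j = e * 2 ^ k' + j' := congrArg Prod.snd h
  have h3 : k = k' := by omega
  subst h3
  have h4 : j = j' := by omega
  rw [h4]

/-- the set of leaves -/
def TR2_L (B : ℕ → ℕ → Prop) : Set (ℕ × ℕ) := {q | LeafB B q.1 q.2}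

theorem TR2_card (hTR1 : TR1_stmt) (B : ℕ → ℕ → Prop) (hB : MonoB B) (hF : FinB B) (h0 : B 0 0) :
    (TR2_L (TR2_sub B 0)).ncard + (TR2_L (TR2_sub B 1)).ncard ≤ (TR2_L B).ncard := by
  have hfin : (TR2_L B).Finite := (hTR1 B hB hF).2.2
  rw [← Set.ncard_image_of_injective (TR2_L (TR2_sub B 0)) (TR2_emb_inj 0),
    ← Set.ncard_image_of_injective (TR2_L (TR2_sub B 1)) (TR2_emb_inj 1)]
  have hs0 : TR2_emb 0 '' TR2_L (TR2_sub B 0) ⊆ TR2_L B := by
    rintro _ ⟨⟨k, j⟩, hq, rfl⟩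
    exact (TR2_leaf B h0 0 (by norm_num) k j hq.1).mp hq
  have hs1 : TR2_emb 1 '' TR2_L (TR2_sub B 1) ⊆ TR2_L B := by
    rintro _ ⟨⟨k, j⟩, hq, rfl⟩
    exact (TR2_leaf B h0 1 (by norm_num) k j hq.1).mp hq
  have hdis : Disjoint (TR2_emb 0 '' TR2_L (TR2_sub B 0)) (TR2_emb 1 '' TR2_L (TR2_sub B 1)) := by
    rw [Set.disjoint_left]
    rintro _ ⟨⟨k, j⟩, hq, rfl⟩ ⟨⟨k', j'⟩, hq', h⟩
    have h1 : k' + 1 = k + 1 := congrArg Prod.fst h
    have h2 : 1 * 2 ^ k' + j' = 0 * 2 ^ k + j := congrArg Prod.snd h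
    have h3 : k' = k := by omega
    subst h3
    have h4 : j < 2 ^ k' := hq.1
    omega
  rw [← Set.ncard_union_eq hdis (hfin.subset hs0) (hfin.subset hs1)]
  exact Set.ncard_le_ncard (Set.union_subset hs0 hs1) hfin

theorem TR2_pos (hTR1 : TR1_stmt) (B : ℕ → ℕ → Prop) (hB : MonoB B) (hF : FinB B) : 1 ≤ (TR2_L B).ncard := by
  obtain ⟨k, j, h, _⟩ := (hTR1 B hB hF).1 0 le_rfl zero_lt_one
  have hfin : (TR2_L B).Finite := (hTR1 B hB hF).2.2
  rw [Nat.one_le_iff_ne_zero, Ne, Set.ncard_eq_zero hfin]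
  intro he
  have : ((k, j) : ℕ × ℕ) ∈ TR2_L B := h
  rw [he] at this
  exact this

theorem TR2 (hTR1 : TR1_stmt) : TR2_stmt := by
  intro B hB hF k
  revert hB hF
  revert B
  induction k with
  | zero =>
    intro B hB hF j h
    exact TR2_pos hTR1 B hB hF
  | succ k ih =>
    intro B hB hF j h
    have h0 : B 0 0 := by
      rcases h.2.2 with h1 | h1
      · omega
      · -- go up
        have hj : j / 2 < 2 ^ k := by
          have := h.1
          rw [pow_succ] at this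
          omega
        have gen : ∀ l i, i < 2 ^ l → B l i → B 0 0 := by
          intro l
          induction l with
          | zero =>
            intro i hi hb
            have : i = 0 := by simpa using hi
            rw [this] at hb
            exact hb
          | succ l ihl =>
            intro i hi hb
            refine ihl (i / 2) ?_ (hB l i hi hb)
            rw [pow_succ] at hi
            omega
        exact gen k (j / 2) hj h1
    have hc := TR2_card hTR1 B hB hF h0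
    have hp0 := TR2_pos hTR1 (TR2_sub B 0) (TR2_mono B hB 0 (by norm_num)) (TR2_fin B hF 0 (by norm_num))
    have hp1 := TR2_pos hTR1 (TR2_sub B 1) (TR2_mono B hB 1 (by norm_num)) (TR2_fin B hF 1 (by norm_num))
    have hjlt := h.1
    rw [pow_succ] at hjlt
    by_cases hlo : j < 2 ^ k
    · have hl : LeafB (TR2_sub B 0) k j := by
        rw [TR2_leaf B h0 0 (by norm_num) k j hlo]
        have e1 : 0 * 2 ^ k + j = j := by omega
        rw [e1]
        exact h
      have := ih (TR2_sub B 0) (TR2_mono B hB 0 (by norm_num)) (TR2_fin B hF 0 (by norm_num)) j hl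
      have h5 : k + 1 ≤ (TR2_L (TR2_sub B 0)).ncard := this
      have h6 : k + 1 + 1 ≤ (TR2_L B).ncard := by omega
      exact h6
    · push Not at hlo
      have hl : LeafB (TR2_sub B 1) k (j - 2 ^ k) := by
        rw [TR2_leaf B h0 1 (by norm_num) k (j - 2 ^ k) (by omega)]
        have e1 : 1 * 2 ^ k + (j - 2 ^ k) = j := by omega
        rw [e1]
        exact h
      have := ih (TR2_sub B 1) (TR2_mono B hB 1 (by norm_num)) (TR2_fin B hF 1 (by norm_num)) _ hl
      have h5 : k + 1 ≤ (TR2_L (TR2_sub B 1)).ncard := this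
      have h6 : k + 1 + 1 ≤ (TR2_L B).ncard := by omega
      exact h6

end Pool.Agent.OFP
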