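import Mathlib
import Pool.Agent.helper11.OFP.Spec

set_option autoImplicit false

open Pool.Agent.LOF MeasureTheory

namespace Pool.Agent.OFP

/-- left end of the path interval -/
noncomputable def XSD_A (c : ℕ → Bool) (i : ℕ) : ℝ := (pth c i : ℝ) / 4 ^ i

/-- right end of the path interval -/
noncomputable def XSD_D (c : ℕ → Bool) (i : ℕ) : ℝ := ((pth c i : ℝ) + 1) / 4 ^ i

theorem XSD_pow (i : ℕ) : (2 : ℝ) ^ (2 * i) = 4 ^ i := by
  rw [pow_mul]
  norm_num

theorem XSD_left (q : ℕ → ℝ) (c : ℕ → Bool) (i j : ℕ) :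
    pnt q c (i, j, true) = XSD_A c i + q j * (XSD_A c (i + 1) - XSD_A c i) := by
  have h4 : (4 : ℝ) ^ i ≠ 0 := by positivity
  unfold pnt lev num XSD_A
  cases h : c i
  · simp only [h, pth, if_true, if_false, Bool.true_eq_false, Bool.false_eq_true]
    have e : (2 : ℝ) ^ (2 * i + 2) = 4 * 4 ^ i := by
      rw [pow_add, XSD_pow]; ring
    rw [e, pow_succ]
    push_cast
    field_simp
    ring
  · simp only [h, pth, if_true]
    have e : (2 : ℝ) ^ (2 * i + 1) = 2 * 4 ^ i := by
      rw [pow_add, XSD_pow]; ring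
    rw [e, pow_succ]
    push_cast
    field_simp
    ring

theorem XSD_right (q : ℕ → ℝ) (c : ℕ → Bool) (i j : ℕ) :
    pnt q c (i, j, false) = XSD_D c (i + 1) + q j * (XSD_D c i - XSD_D c (i + 1)) := by
  have h4 : (4 : ℝ) ^ i ≠ 0 := by positivity
  unfold pnt lev num XSD_D
  cases h : c i
  · simp only [h, pth, if_true, if_false, Bool.false_eq_true]
    have e : (2 : ℝ) ^ (2 * i + 1) = 2 * 4 ^ i := by
      rw [pow_add, XSD_pow]; ring
    rw [e, pow_succ]
    push_cast
    field_simp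
    ring
  · simp only [h, pth, if_true, if_false, Bool.false_eq_true]
    have e : (2 : ℝ) ^ (2 * i + 2) = 4 * 4 ^ i := by
      rw [pow_add, XSD_pow]; ring
    rw [e, pow_succ]
    push_cast
    field_simp
    ring

theorem XSD_A_lt (c : ℕ → Bool) (i : ℕ) : XSD_A c i < XSD_A c (i + 1) := by
  have h4 : (0 : ℝ) < 4 ^ i := by positivity
  unfold XSD_A
  rw [div_lt_div_iff₀ h4 (by positivity), pow_succ]
  cases h : c i
  · simp only [h, pth, if_false, Bool.false_eq_true]
    push_cast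
    nlinarith
  · simp only [h, pth, if_true]
    push_cast
    nlinarith

theorem XSD_D_lt (c : ℕ → Bool) (i : ℕ) : XSD_D c (i + 1) < XSD_D c i := by
  have h4 : (0 : ℝ) < 4 ^ i := by positivity
  unfold XSD_D
  rw [div_lt_div_iff₀ (by positivity) h4, pow_succ]
  cases h : c i
  · simp only [h, pth, if_false, Bool.false_eq_true]
    push_cast
    nlinarith
  · simp only [h, pth, if_true]
    push_cast
    nlinarith

theorem XSD_AD (c : ℕ → Bool) (i : ℕ) : XSD_D c i = XSD_A c i + 1 / 4 ^ i := by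
  unfold XSD_A XSD_D
  rw [add_div]

theorem XSD_A_mono (c : ℕ → Bool) : StrictMono (XSD_A c) := strictMono_nat_of_lt_succ (XSD_A_lt c)

theorem XSD_D_anti (c : ℕ → Bool) : StrictAnti (XSD_D c) := strictAnti_nat_of_succ_lt (XSD_D_lt c)

theorem XSD_A_lt_D (c : ℕ → Bool) (i j : ℕ) : XSD_A c i < XSD_D c j := by
  have h1 : XSD_A c i ≤ XSD_A c (max i j) := (XSD_A_mono c).monotone (le_max_left _ _)
  have h2 : XSD_D c (max i j) ≤ XSD_D c j := (XSD_D_anti c).antitone (le_max_right _ _)
  have h3 := XSD_AD c (max i j)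
  have h4 : (0 : ℝ) < 1 / 4 ^ (max i j) := by positivity
  linarith

theorem XSD_A0 (c : ℕ → Bool) : XSD_A c 0 = 0 := by
  unfold XSD_A
  simp [pth]

theorem XSD_D0 (c : ℕ → Bool) : XSD_D c 0 = 1 := by
  unfold XSD_D
  simp [pth]

theorem XSD_leftmem (q : ℕ → ℝ) (hq : ∀ n, 0 < q n ∧ q n < 1) (c : ℕ → Bool) (i j : ℕ) :
    XSD_A c i < pnt q c (i, j, true) ∧ pnt q c (i, j, true) < XSD_A c (i + 1) := by
  rw [XSD_left]
  obtain ⟨h0, h1⟩ := hq j
  have h := XSD_A_lt c i
  constructor <;> nlinarith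

theorem XSD_rightmem (q : ℕ → ℝ) (hq : ∀ n, 0 < q n ∧ q n < 1) (c : ℕ → Bool) (i j : ℕ) :
    XSD_D c (i + 1) < pnt q c (i, j, false) ∧ pnt q c (i, j, false) < XSD_D c i := by
  rw [XSD_right]
  obtain ⟨h0, h1⟩ := hq j
  have h := XSD_D_lt c i
  constructor <;> nlinarith

theorem XSD_dec_surj (i j : ℕ) (b : Bool) : ∃ n, dec n = (i, j, b) := by
  cases b
  · refine ⟨2 * Nat.pair i j + 1, ?_⟩
    unfold dec
    have e1 : (2 * Nat.pair i j + 1) / 2 = Nat.pair i j := by omega
    have e2 : ¬ ((2 * Nat.pair i j + 1) % 2 = 0) := by omega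
    rw [e1, Nat.unpair_pair, decide_eq_false e2]
  · refine ⟨2 * Nat.pair i j, ?_⟩
    unfold dec
    have e1 : (2 * Nat.pair i j) / 2 = Nat.pair i j := by omega
    have e2 : (2 * Nat.pair i j) % 2 = 0 := by omega
    rw [e1, Nat.unpair_pair, decide_eq_true e2]

theorem XSD_dec_inj : Function.Injective dec := by
  intro n n' h
  unfold dec at h
  rw [Prod.mk.injEq, Prod.mk.injEq] at h
  obtain ⟨h1, h2, h3⟩ := h
  have h4 : n / 2 = n' / 2 := by
    rw [← Nat.pair_unpair (n / 2), ← Nat.pair_unpair (n' / 2), h1, h2]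
  have h5 : (n % 2 = 0) ↔ (n' % 2 = 0) := decide_eq_decide.mp h3
  omega

theorem XSD_pnt_inj (q : ℕ → ℝ) (hq : ∀ n, 0 < q n ∧ q n < 1) (hinj : Function.Injective q) (c : ℕ → Bool)
    (z z' : ℕ × ℕ × Bool) (h : pnt q c z = pnt q c z') : z = z' := by
  obtain ⟨i, j, b⟩ := z
  obtain ⟨i', j', b'⟩ := z'
  cases b <;> cases b'
  · obtain ⟨h1, h2⟩ := XSD_rightmem q hq c i j
    obtain ⟨h3, h4⟩ := XSD_rightmem q hq c i' j'
    have hii : i = i' := by
      rcases lt_trichotomy i i' with hlt | heq | hgt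
      · have := (XSD_D_anti c).antitone (show i + 1 ≤ i' by omega)
        linarith
      · exact heq
      · have := (XSD_D_anti c).antitone (show i' + 1 ≤ i by omega)
        linarith
    subst hii
    rw [XSD_right, XSD_right] at h
    have hpos : XSD_D c i - XSD_D c (i + 1) ≠ 0 := by
      have := XSD_D_lt c i
      linarith
    have hqq : q j = q j' := mul_right_cancel₀ hpos (by linarith)
    rw [hinj hqq]
  · obtain ⟨h1, h2⟩ := XSD_rightmem q hq c i j
    obtain ⟨h3, h4⟩ := XSD_leftmem q hq c i' j'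
    have := XSD_A_lt_D c (i' + 1) (i + 1)
    linarith
  · obtain ⟨h1, h2⟩ := XSD_leftmem q hq c i j
    obtain ⟨h3, h4⟩ := XSD_rightmem q hq c i' j'
    have := XSD_A_lt_D c (i + 1) (i' + 1)
    linarith
  · obtain ⟨h1, h2⟩ := XSD_leftmem q hq c i j
    obtain ⟨h3, h4⟩ := XSD_leftmem q hq c i' j'
    have hii : i = i' := by
      rcases lt_trichotomy i i' with hlt | heq | hgt
      · have := (XSD_A_mono c).monotone (show i + 1 ≤ i' by omega)
        linarith
      · exact heq
      · have := (XSD_A_mono c).monotone (show i' + 1 ≤ i by omega)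
        linarith
    subst hii
    rw [XSD_left, XSD_left] at h
    have hpos : XSD_A c (i + 1) - XSD_A c i ≠ 0 := by
      have := XSD_A_lt c i
      linarith
    have hqq : q j = q j' := mul_right_cancel₀ hpos (by linarith)
    rw [hinj hqq]

theorem XSD_rel (q : ℕ → ℝ) (hq : ∀ a b : ℝ, 0 ≤ a → a < b → b ≤ 1 → ∃ n, a < q n ∧ q n < b)
    (u v lo hi : ℝ) (huv : u < v) (h1 : u ≤ lo) (h2 : lo < hi) (h3 : hi ≤ v) :
    ∃ j, lo < u + q j * (v - u) ∧ u + q j * (v - u) < hi := by
  have hp : 0 < v - u := by linarith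
  obtain ⟨j, hj1, hj2⟩ := hq ((lo - u) / (v - u)) ((hi - u) / (v - u)) (div_nonneg (by linarith) hp.le)
    (by rw [div_lt_div_iff_of_pos_right hp]; linarith) (by rw [div_le_one hp]; linarith)
  rw [div_lt_iff₀ hp] at hj1
  rw [lt_div_iff₀ hp] at hj2
  exact ⟨j, by linarith, by linarith⟩

theorem XSD : XSD_stmt := by
  intro q c hq
  obtain ⟨hq01, hqinj, hqd⟩ := hq
  refine ⟨?_, ?_, ?_⟩
  · intro n
    unfold seq
    cases hb : (dec n).2.2
    · have e : dec n = ((dec n).1, (dec n).2.1, false) := by rw [← hb]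
      rw [e]
      obtain ⟨h1, h2⟩ := XSD_rightmem q hq01 c (dec n).1 (dec n).2.1
      have h3 := XSD_A_lt_D c 0 ((dec n).1 + 1)
      have h4 := (XSD_D_anti c).antitone (Nat.zero_le (dec n).1)
      rw [XSD_A0] at h3
      rw [XSD_D0] at h4
      exact ⟨by linarith, by linarith⟩
    · have e : dec n = ((dec n).1, (dec n).2.1, true) := by rw [← hb]
      rw [e]
      obtain ⟨h1, h2⟩ := XSD_leftmem q hq01 c (dec n).1 (dec n).2.1
      have h3 := XSD_A_lt_D c ((dec n).1 + 1) 0
      have h4 := (XSD_A_mono c).monotone (Nat.zero_le (dec n).1)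
      rw [XSD_D0] at h3
      rw [XSD_A0] at h4
      exact ⟨by linarith, by linarith⟩
  · intro n n' h
    exact XSD_dec_inj (XSD_pnt_inj q hq01 hqinj c _ _ h)
  · intro a b ha hab hb
    obtain ⟨N, hN⟩ := exists_pow_lt_of_lt_one (show (0 : ℝ) < b - a by linarith) (show (1 / 4 : ℝ) < 1 by norm_num)
    have hN' : 1 / (4 : ℝ) ^ N < b - a := by
      rw [one_div_pow] at hN
      exact hN
    classical
    by_cases hcase : a < XSD_A c N
    · -- left sibling
      have hex : ∃ i, a < XSD_A c i := ⟨N, hcase⟩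
      have hspec := Nat.find_spec hex
      have h0 : Nat.find hex ≠ 0 := by
        intro h0
        rw [h0, XSD_A0] at hspec
        linarith
      obtain ⟨i, hi⟩ : ∃ i, Nat.find hex = i + 1 := ⟨Nat.find hex - 1, by omega⟩
      have hmin : ¬ a < XSD_A c i := Nat.find_min hex (by omega)
      push Not at hmin
      rw [hi] at hspec
      obtain ⟨j, hj1, hj2⟩ := XSD_rel q hqd (XSD_A c i) (XSD_A c (i + 1)) a (min b (XSD_A c (i + 1)))
        (XSD_A_lt c i) hmin (lt_min hab hspec) (min_le_right _ _)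
      obtain ⟨n, hn⟩ := XSD_dec_surj i j true
      refine ⟨n, ?_, ?_⟩
      · unfold seq
        rw [hn, XSD_left]
        exact hj1
      · unfold seq
        rw [hn, XSD_left]
        exact lt_of_lt_of_le hj2 (min_le_left _ _)
    · push Not at hcase
      have hbD : XSD_D c N < b := by
        rw [XSD_AD]
        linarith
      have hex : ∃ i, XSD_D c i < b := ⟨N, hbD⟩
      have hspec := Nat.find_spec hex
      have h0 : Nat.find hex ≠ 0 := by
        intro h0
        rw [h0, XSD_D0] at hspec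
        linarith
      obtain ⟨i, hi⟩ : ∃ i, Nat.find hex = i + 1 := ⟨Nat.find hex - 1, by omega⟩
      have hmin : ¬ XSD_D c i < b := Nat.find_min hex (by omega)
      push Not at hmin
      rw [hi] at hspec
      obtain ⟨j, hj1, hj2⟩ := XSD_rel q hqd (XSD_D c (i + 1)) (XSD_D c i) (max a (XSD_D c (i + 1))) b
        (XSD_D_lt c i) (le_max_right _ _) (max_lt hab hspec) hmin
      obtain ⟨n, hn⟩ := XSD_dec_surj i j false
      refine ⟨n, ?_, ?_⟩
      · unfold seq
        rw [hn, XSD_right]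
        exact lt_of_le_of_lt (le_max_left _ _) hj1
      · unfold seq
        rw [hn, XSD_right]
        exact hj2

end Pool.Agent.OFP
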