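import Pool.Agent.helper11.OFP.TR1
import Pool.Agent.helper11.OFP.TR2
import Pool.Agent.helper11.OFP.SND
import Pool.Agent.helper11.OFP.STD
import Pool.Agent.helper11.OFP.EQU
import Pool.Agent.helper11.OFP.FCL
import Pool.Agent.helper11.OFP.EXH
import Pool.Agent.helper11.OFP.RMS
import Pool.Agent.helper74.OFP.CRI
import Pool.Agent.helper87.OFP.HCX
import Pool.Agent.helper17.OFP.CHN
import Pool.Agent.helper59.OFP.HCS
import Pool.Agent.helper17.OFP.CVC
import Pool.Agent.helper83.OFP.CMP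
import Pool.Agent.helper40.OFP.FMS
import Pool.Agent.helper59.OFP.CRD
import Pool.Agent.helper1.OFP.BMS
import Pool.Agent.helper59.OFP.FSM
import Pool.Agent.helper59.OFP.BFM
import Pool.Agent.helper17.OFP.BEQ
import Pool.Agent.helper24.OFP.WDM
import Pool.Agent.helper72.OFP.WMS
import Pool.Agent.helper92.OFP.WIN
import Pool.Agent.helper24.OFP.WEX
import Pool.Agent.helper11.OFP.HYP
import Pool.Agent.helper29.OFP.LXO
import Pool.Agent.helper72.OFP.GEN
import Pool.Agent.helper24.OFP.BMP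
import Pool.Agent.helper85.OFP.LXW
import Pool.Agent.helper83.OFP.LIN
import Pool.Agent.helper92.OFP.LCJ
import Pool.Agent.helper11.OFP.XSD
import Pool.Agent.helper92.OFP.XSF
import Pool.Agent.helper93.OFP.XCI
import Pool.Agent.helper1.OFP.XMS
import Pool.Agent.helper41.OFP.ERG
import Pool.Agent.helper92.OFP.NAT
import Pool.Agent.helper98.OFP.NSM

set_option autoImplicit false

/-!
# Assembly of project ofp (MP_90e158_lc)
-/

namespace Pool.Agent.OFP

open Pool.Agent.LOF

theorem main : FIN_stmt := by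
  have tr1 := TR1
  have snd := SND
  have tr2 := TR2 tr1
  have cri : CRI_stmt := CRI (EQU tr1 snd) (FCL tr1 tr2 snd) (EXH snd STD) RMS
  have fms := FMS HCS CMP
  have wdm := WDM CHN HCX
  have hyp : HYP_stmt := HYP (BMS fms CRD) (BFM (FSM CHN HCX)) (BEQ snd CVC) (WEX CHN HCX wdm) cri
  have bmp := BMP GEN
  have lxw := LXW bmp
  refine ⟨cri, WMS fms CRD wdm, WIN CVC, hyp, ?_, NSM LXO lxw (LIN bmp) LCJ XSD (XSF GEN) XCI
    XMS ERG NAT⟩
  intro x s hx
  obtain ⟨r, hr⟩ := LXO x s hx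
  exact ⟨r, lxw r x s hx hr, hr⟩

end Pool.Agent.OFP
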