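import Pool.Agent.helper11.OFP.Spec

set_option autoImplicit false

open MeasureTheory

namespace Pool.Agent.OFP.Check

open Pool.Agent.LOF Pool.Agent.OFP

theorem compose
  (hTR1 : TR1_stmt) (hTR2 : TR1_stmt → TR2_stmt) (hSND : SND_stmt) (hSTD : STD_stmt)
  (hEQU : TR1_stmt → SND_stmt → EQU_stmt) (hFCL : TR1_stmt → TR2_stmt → SND_stmt → FCL_stmt)
  (hEXH : SND_stmt → STD_stmt → EXH_stmt) (hRMS : RMS_stmt)
  (hCRI : EQU_stmt → FCL_stmt → EXH_stmt → RMS_stmt → CRI_stmt)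
  (hHCX : HCX_stmt) (hCHN : CHN_stmt) (hHCS : HCS_stmt) (hCVC : CVC_stmt) (hCMP : CMP_stmt)
  (hFMS : HCS_stmt → CMP_stmt → FMS_stmt) (hCRD : CRD_stmt) (hBMS : FMS_stmt → CRD_stmt → BMS_stmt)
  (hFSM : CHN_stmt → HCX_stmt → FSM_stmt) (hBFM : FSM_stmt → BFM_stmt)
  (hBEQ : SND_stmt → CVC_stmt → BEQ_stmt) (hWDM : CHN_stmt → HCX_stmt → WDM_stmt)
  (hWMS : FMS_stmt → CRD_stmt → WDM_stmt → WMS_stmt) (hWIN : CVC_stmt → WIN_stmt)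
  (hWEX : CHN_stmt → HCX_stmt → WDM_stmt → WEX_stmt)
  (hHYP : BMS_stmt → BFM_stmt → BEQ_stmt → WEX_stmt → CRI_stmt → HYP_stmt)
  (hLXO : LXO_stmt) (hGEN : GEN_stmt) (hBMP : GEN_stmt → BMP_stmt) (hLXW : BMP_stmt → LXW_stmt)
  (hLIN : BMP_stmt → LIN_stmt) (hLCJ : LCJ_stmt) (hXSD : XSD_stmt) (hXSF : GEN_stmt → XSF_stmt)
  (hXCI : XCI_stmt) (hXMS : XMS_stmt) (hERG : ERG_stmt) (hNAT : NAT_stmt)
  (hNSM : LXO_stmt → LXW_stmt → LIN_stmt → LCJ_stmt → XSD_stmt → XSF_stmt → XCI_stmt → XMS_stmt →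
    ERG_stmt → NAT_stmt → NSM_stmt) : FIN_stmt := by
  have tr2 := hTR2 hTR1
  have cri := hCRI (hEQU hTR1 hSND) (hFCL hTR1 tr2 hSND) (hEXH hSND hSTD) hRMS
  have fms := hFMS hHCS hCMP
  have wdm := hWDM hCHN hHCX
  have hyp := hHYP (hBMS fms hCRD) (hBFM (hFSM hCHN hHCX)) (hBEQ hSND hCVC) (hWEX hCHN hHCX wdm) cri
  have bmp := hBMP hGEN
  have lxw := hLXW bmp
  refine ⟨cri, hWMS fms hCRD wdm, hWIN hCVC, hyp, ?_, hNSM hLXO lxw (hLIN bmp) hLCJ hXSD (hXSF hGEN) hXCI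
    hXMS hERG hNAT⟩
  intro x s hx
  obtain ⟨r, hr⟩ := hLXO x s hx
  exact ⟨r, lxw r x s hx hr, hr⟩

end Pool.Agent.OFP.Check
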