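import Pool.Agent.helper11.OFP.All

set_option autoImplicit false

/-!
# The definitions of the final statement
-/

open MeasureTheory

namespace Pool.Agent.OFP.Show

open Pool.Agent.LOF

/-- `g` maps the interval `[j/2^k, (j+1)/2^k]` affinely onto the interval `[j'/2^k', (j'+1)/2^k']` -/
def Sends (g : F) (k j k' j' : ℕ) : Prop :=
  ∀ t : ℝ, 0 ≤ t → t ≤ 1 → g.1 (((j : ℝ) + t) / 2 ^ k) = ((j' : ℝ) + t) / 2 ^ k'

/-- a Borel action of `F` on `X` -/
structure Action {X : Type} [MeasurableSpace X] (act : F → X → X) : Prop where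
  one : ∀ x, act 1 x = x
  mul : ∀ g h x, act (g * h) x = act g (act h x)
  meas : ∀ g, Measurable (act g)

/-- Borel sets `B m k j ⊆ X` for `m ∈ ℕ` and the standard dyadic intervals `(k,j)`, that is `[j/2^k, (j+1)/2^k)`, `j < 2^k`:
increasing with the interval (the parent of `(k+1,j)` is `(k,j/2)`); for fixed `m` every point is in finitely many of
them; equivariant under the elements of `F` which map a standard dyadic interval affinely onto a standard dyadic
interval -/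
structure Family {X : Type} [MeasurableSpace X] (act : F → X → X) (B : ℕ → ℕ → ℕ → Set X) : Prop where
  meas : ∀ m k j, MeasurableSet (B m k j)
  mono : ∀ m k j x, j < 2 ^ (k + 1) → x ∈ B m (k + 1) j → x ∈ B m k (j / 2)
  fin : ∀ m x, ∃ K : ℕ, ∀ k, K ≤ k → ∀ j, j < 2 ^ k → x ∉ B m k j
  equi : ∀ m g k j k' j', j < 2 ^ k → j' < 2 ^ k' → Sends g k j k' j' → ∀ x, (x ∈ B m k j ↔ act g x ∈ B m k' j')

/-- the points which for every standard dyadic interval `(k,j)` are in `B m k j` for all large `m` -/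
def Lim {X : Type} (B : ℕ → ℕ → ℕ → Set X) : Set X :=
  {x | ∀ k : ℕ, ∃ M : ℕ, ∀ m, M ≤ m → ∀ j, j < 2 ^ k → x ∈ B m k j}

/-- `C` is a convex subgroup for the left order `r` -/
def Convex (r : LO F) (C : Subgroup F) : Prop :=
  ∀ a ∈ C, ∀ b ∈ C, ∀ h : F, r.1 (a, h) = true → r.1 (h, b) = true → h ∈ C

/-- the common fixed points in `(0,1)` of the elements of `C` -/
def fix (C : Subgroup F) : Set ℝ := {t | 0 < t ∧ t < 1 ∧ ∀ g ∈ C, g.1 t = t}

/-- the left orders such that for every open interval `(a,b)` of `(0,1)` some convex subgroup `C ≠ 1` has a finite set of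
fixed points in `(0,1)`, which meets `(a,b)` -/
def W : Set (LO F) := {r | ∀ a b : ℝ, 0 ≤ a → a < b → b ≤ 1 →
  ∃ C : Subgroup F, Convex r C ∧ C ≠ ⊥ ∧ (fix C).Finite ∧ ∃ t ∈ fix C, a < t ∧ t < b}

/-- an injective sequence in `(0,1)` with dense range -/
def DenseSeq (x : ℕ → ℝ) : Prop := (∀ n, 0 < x n ∧ x n < 1) ∧ Function.Injective x ∧
  ∀ a b : ℝ, 0 ≤ a → a < b → b ≤ 1 → ∃ n, a < x n ∧ x n < b

/-- `r` is the lexicographic order of the sequence `x` with the signs `s`: `g < h` iff at the first point `x n` where they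
differ `g` is below `h` if `s n = true`, above `h` if `s n = false` -/
def IsLex (r : LO F) (x : ℕ → ℝ) (s : ℕ → Bool) : Prop := ∀ g h : F, r.1 (g, h) = true ↔
  ∃ n, (∀ i < n, g.1 (x i) = h.1 (x i)) ∧
    ((s n = true ∧ g.1 (x n) < h.1 (x n)) ∨ (s n = false ∧ h.1 (x n) < g.1 (x n)))

/-- the restriction of `E` to `Y` is smooth -/
def SmoothOn {X : Type} [MeasurableSpace X] (Y : Set X) (E : X → X → Prop) : Prop :=
  ∃ f : X → ℝ, Measurable f ∧ ∀ x ∈ Y, ∀ y ∈ Y, (E x y ↔ f x = f y)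

theorem final :
    (MeasurableSet W ∧ (∀ (r : LO F) (g : F), r ∈ W → conj g r ∈ W) ∧ HyperfiniteOn W (Elo F) ∧
      ¬ SmoothOn W (Elo F) ∧ ∀ (x : ℕ → ℝ) (s : ℕ → Bool), DenseSeq x → ∃ r ∈ W, IsLex r x s) ∧
    ∀ (X : Type) [MeasurableSpace X], MeasurableSet {p : X × X | p.1 = p.2} →
      ∀ (act : F → X → X) (B : ℕ → ℕ → ℕ → Set X), Action act → Family act B →
        HyperfiniteOn (Lim B) (fun x y => ∃ g : F, y = act g x) := by
  obtain ⟨h1, h2, h3, h4, h5, h6⟩ := Pool.Agent.OFP.main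
  refine ⟨⟨h2, h3, h4, h6, h5⟩, ?_⟩
  intro X _ hd act B ha hB
  exact h1 X hd act B ⟨ha.one, ha.mul, ha.meas⟩ ⟨hB.meas, hB.mono, hB.fin, hB.equi⟩

end Pool.Agent.OFP.Show
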