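import Mathlib
import Pool.Agent.helper11.OFP.Spec

set_option autoImplicit false

open Pool.Agent.LOF MeasureTheory

namespace Pool.Agent.OFP

theorem TR1_mem (t : ℝ) (k j : ℕ) (ht : 0 ≤ t) : t ∈ Iv k j ↔ ⌊t * 2 ^ k⌋₊ = j := by
  rw [Nat.floor_eq_iff (by positivity)]
  exact Iff.rfl

theorem TR1_half (t : ℝ) (k : ℕ) : ⌊t * 2 ^ (k + 1)⌋₊ / 2 = ⌊t * 2 ^ k⌋₊ := by
  have h := Nat.floor_div_natCast (t * 2 ^ (k + 1)) 2
  have e : t * 2 ^ (k + 1) / ((2 : ℕ) : ℝ) = t * 2 ^ k := by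
    push_cast
    rw [pow_succ]
    ring
  rw [e] at h
  exact h.symm

theorem TR1_lt (t : ℝ) (k : ℕ) (ht : 0 ≤ t) (ht1 : t < 1) : ⌊t * 2 ^ k⌋₊ < 2 ^ k := by
  rw [Nat.floor_lt (by positivity)]
  push_cast
  have : (0 : ℝ) < 2 ^ k := by positivity
  nlinarith

theorem TR1_down (B : ℕ → ℕ → Prop) (hB : MonoB B) (t : ℝ) (ht : 0 ≤ t) (ht1 : t < 1) (k : ℕ) :
    ∀ d : ℕ, B (k + d) ⌊t * 2 ^ (k + d)⌋₊ → B k ⌊t * 2 ^ k⌋₊ := by
  intro d
  induction d with
  | zero => exact fun h => h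
  | succ d ih =>
    intro h
    apply ih
    have h1 := hB (k + d) ⌊t * 2 ^ (k + (d + 1))⌋₊ (TR1_lt t (k + (d + 1)) ht ht1) h
    have h2 : ⌊t * 2 ^ (k + (d + 1))⌋₊ / 2 = ⌊t * 2 ^ (k + d)⌋₊ := TR1_half t (k + d)
    rw [h2] at h1
    exact h1

theorem TR1_uniq (B : ℕ → ℕ → Prop) (hB : MonoB B) (t : ℝ) (k j k' j' : ℕ) (h : LeafB B k j)
    (h' : LeafB B k' j') (hm : t ∈ Iv k j) (hm' : t ∈ Iv k' j') (hlt : k < k') : False := by
  have h2k : (0 : ℝ) < 2 ^ k := by positivity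
  have ht : 0 ≤ t := by
    by_contra hn
    push Not at hn
    have h1 : (0 : ℝ) ≤ j := Nat.cast_nonneg j
    have h2 := hm.1
    nlinarith
  have ht1 : t < 1 := by
    have h1 : ((j : ℝ) + 1) ≤ 2 ^ k := by
      have := h.1
      exact_mod_cast this
    have h2 := hm.2
    by_contra hn
    push Not at hn
    nlinarith
  rw [TR1_mem t k j ht] at hm
  rw [TR1_mem t k' j' ht] at hm'
  rcases h'.2.2 with h0 | h0
  · omega
  · obtain ⟨d, hd⟩ : ∃ d, k' = k + d + 1 := ⟨k' - k - 1, by omega⟩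
    subst hd
    have e1 : k + d + 1 - 1 = k + d := by omega
    rw [e1, ← hm', TR1_half t (k + d)] at h0
    have h3 := TR1_down B hB t ht ht1 k d h0
    rw [hm] at h3
    exact h.2.1 h3

theorem TR1 : TR1_stmt := by
  intro B hB hF
  obtain ⟨K, hK⟩ := hF
  refine ⟨?_, ?_, ?_⟩
  · intro t ht ht1
    classical
    have hex : ∃ k, ¬ B k ⌊t * 2 ^ k⌋₊ := ⟨K, hK K le_rfl _ (TR1_lt t K ht ht1)⟩
    refine ⟨Nat.find hex, ⌊t * 2 ^ (Nat.find hex)⌋₊, ⟨TR1_lt t _ ht ht1, Nat.find_spec hex, ?_⟩,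
      (TR1_mem t _ _ ht).mpr rfl⟩
    by_cases h0 : Nat.find hex = 0
    · exact Or.inl h0
    · right
      obtain ⟨l, hl⟩ : ∃ l, Nat.find hex = l + 1 := ⟨Nat.find hex - 1, by omega⟩
      have h1 : ¬ ¬ B l ⌊t * 2 ^ l⌋₊ := Nat.find_min hex (by omega)
      rw [hl, Nat.add_sub_cancel, TR1_half t l]
      exact not_not.mp h1
  · intro t k j k' j' h h' hm hm'
    rcases lt_trichotomy k k' with hlt | heq | hgt
    · exact (TR1_uniq B hB t k j k' j' h h' hm hm' hlt).elim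
    · subst heq
      refine ⟨rfl, ?_⟩
      have h2k : (0 : ℝ) < 2 ^ k := by positivity
      have ht : 0 ≤ t := by
        by_contra hn
        push Not at hn
        have h1 : (0 : ℝ) ≤ j := Nat.cast_nonneg j
        have h2 := hm.1
        nlinarith
      rw [TR1_mem t k j ht] at hm
      rw [TR1_mem t k j' ht] at hm'
      exact hm.symm.trans hm'
    · exact (TR1_uniq B hB t k' j' k j h' h hm' hm hgt).elim
  · apply Set.Finite.subset (Finset.finite_toSet (Finset.range (K + 1) ×ˢ Finset.range (2 ^ K)))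
    rintro ⟨k, j⟩ ⟨h1, h2, h3⟩
    have hk : k ≤ K := by
      by_contra hn
      push Not at hn
      rcases h3 with h0 | h0
      · simp only at h0
        omega
      · simp only at h0 h1
        refine hK (k - 1) (by omega) (j / 2) ?_ h0
        obtain ⟨l, hl⟩ : ∃ l, k = l + 1 := ⟨k - 1, by omega⟩
        subst hl
        rw [Nat.add_sub_cancel]
        rw [pow_succ] at h1
        omega
    have hj : j < 2 ^ K := lt_of_lt_of_le h1 (Nat.pow_le_pow_right (by norm_num) hk)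
    rw [Finset.mem_coe, Finset.mem_product, Finset.mem_range, Finset.mem_range]
    exact ⟨by simp only; omega, hj⟩

end Pool.Agent.OFP
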